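import Mathlib

/-!
# The discriminant of a number field generated by a root of `g(x, Y)`

The proof of `discr_prod` is taken from `Pool.Agent.Helper996.LinC.G_discr`.
-/

set_option autoImplicit false

namespace Pool.Agent.X236.GP

open Polynomial Module IntermediateField

theorem discr_prod_pairs (N : ℕ) : ∑ i : Fin N, (Finset.Ioi i).card = N * (N - 1) / 2 := by
  have h1 : ∀ i : Fin N, (Finset.Ioi i).card = N - 1 - (i : ℕ) := fun i => Fin.card_Ioi i
  rw [Finset.sum_congr rfl (fun i _ => h1 i), Fin.sum_univ_eq_sum_range (fun i => N - 1 - i) N,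
    Finset.sum_range_reflect (fun i => i) N, Finset.sum_range_id]

theorem discr_prod_const (N : ℕ) (c : ℂ) (f : Fin N → Fin N → ℂ) :
    ∏ p : Fin N, ∏ q ∈ Finset.Ioi p, (c * f p q) =
      c ^ (N * (N - 1) / 2) * ∏ p : Fin N, ∏ q ∈ Finset.Ioi p, f p q := by
  rw [← discr_prod_pairs, ← Finset.prod_pow_eq_pow_sum, ← Finset.prod_mul_distrib]
  refine Finset.prod_congr rfl fun p _ => ?_
  rw [Finset.prod_mul_distrib, Finset.prod_const]

theorem discr_prod {k : ℕ} (hk : 0 < k) (r : Fin k → ℂ) :
    (∏ p, (X - C (r p))).discr = ∏ p, ∏ q ∈ Finset.Ioi p, (r p - r q) ^ 2 := by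
  classical
  have hmonic : (∏ p, (X - C (r p))).Monic := monic_prod_of_monic _ _ fun p _ => monic_X_sub_C _
  have hdeg : (∏ p, (X - C (r p))).natDegree = k := by
    rw [natDegree_prod_of_monic _ _ (fun p _ => monic_X_sub_C _)]
    simp
  have hdp : 0 < (∏ p, (X - C (r p))).degree := by
    rw [← natDegree_pos_iff_degree_pos, hdeg]
    exact hk
  have h1 := resultant_deriv hdp
  rw [resultant_prod_left Finset.univ (fun p => X - C (r p)) _ _ (by simp)
    (natDegree_derivative_le _)] at h1
  have h2 : ∀ p : Fin k, (X - C (r p)).resultant (derivative (∏ p, (X - C (r p))))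
      (X - C (r p)).natDegree ((∏ p, (X - C (r p))).natDegree - 1) =
      ∏ q ∈ ({p} : Finset (Fin k))ᶜ, (r p - r q) := by
    intro p
    rw [natDegree_X_sub_C, resultant_X_sub_C_left _ _ _ (natDegree_derivative_le _),
      derivative_prod_finset, eval_finsetSum, Finset.sum_eq_single p]
    · rw [derivative_X_sub_C, mul_one, eval_prod]
      simp only [eval_sub, eval_X, eval_C]
      refine Finset.prod_congr ?_ fun _ _ => rfl
      ext q
      simp
    · intro q _ hq
      rw [eval_mul, eval_prod]
      rw [Finset.prod_eq_zero (Finset.mem_erase.mpr ⟨Ne.symm hq, Finset.mem_univ p⟩)]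
      · rw [zero_mul]
      · simp
    · intro h
      exact absurd (Finset.mem_univ p) h
  rw [Finset.prod_congr rfl (fun p _ => h2 p), hmonic.leadingCoeff, mul_one, hdeg] at h1
  have h3 := Finset.prod_prod_Ioi_mul_eq_prod_prod_off_diag
    (fun q p : Fin k => r p - r q)
  rw [← h3] at h1
  have h4 : ∏ p : Fin k, ∏ q ∈ Finset.Ioi p, ((r p - r q) * (r q - r p)) =
      (-1) ^ (k * (k - 1) / 2) * ∏ p, ∏ q ∈ Finset.Ioi p, (r p - r q) ^ 2 := by
    rw [← discr_prod_const]
    refine Finset.prod_congr rfl fun p _ => Finset.prod_congr rfl fun q _ => ?_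
    ring
  have h5 : ∏ p : Fin k, ∏ q ∈ Finset.Ioi p, ((r p - r q) * (r q - r p)) =
      (-1) ^ (k * (k - 1) / 2) * (∏ p, (X - C (r p))).discr := by
    rw [← h1]
  rw [h4] at h5
  have h6 : ((-1 : ℂ)) ^ (k * (k - 1) / 2) ≠ 0 := pow_ne_zero _ (by norm_num)
  exact (mul_left_cancel₀ h6 h5).symm

/-- the discriminant of a monic polynomial commutes with ring homomorphisms -/
theorem discr_map {A B : Type} [CommRing A] [CommRing B] [Nontrivial A] [Nontrivial B] (φ : A →+* B)
    (g : A[X]) (hg : g.Monic) (hd : 0 < g.natDegree) : (g.map φ).discr = φ g.discr := by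
  have hnd : (g.map φ).natDegree = g.natDegree := hg.natDegree_map φ
  have h1 := resultant_deriv (f := g) (natDegree_pos_iff_degree_pos.1 hd)
  have h2 := resultant_deriv (f := g.map φ) (natDegree_pos_iff_degree_pos.1 (by rw [hnd]; exact hd))
  rw [hg.leadingCoeff, mul_one] at h1
  rw [(hg.map φ).leadingCoeff, mul_one, hnd, derivative_map, resultant_map_map, h1, map_mul,
    map_pow, map_neg, map_one] at h2
  have hs : ((-1 : B)) ^ (g.natDegree * (g.natDegree - 1) / 2) *
      (-1) ^ (g.natDegree * (g.natDegree - 1) / 2) = 1 := by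
    rw [← mul_pow]
    simp
  have h3 := congrArg (fun z => (-1 : B) ^ (g.natDegree * (g.natDegree - 1) / 2) * z) h2
  simp only [← mul_assoc] at h3
  rw [hs, one_mul, one_mul] at h3
  exact h3.symm

/-- the value at `x` -/
noncomputable def spc (x : ℚ) : ℤ[X] →+* ℚ := eval₂RingHom (Int.castRingHom ℚ) x

/-- **The discriminants of the field and of the polynomial.** -/
theorem discr_link (g : ℤ[X][X]) (hg : g.Monic) (x : ℚ) (L : Type) [Field L] [NumberField L]
    (y : L) (hy : aeval y (g.map (spc x)) = 0) (hgen : ℚ⟮y⟯ = ⊤)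
    (hfin : finrank ℚ L = g.natDegree) :
    ∃ k : ℚ, k ≠ 0 ∧ spc x g.discr = NumberField.discr L * k ^ 2 := by
  classical
  have hd : 0 < g.natDegree := by rw [← hfin]; exact finrank_pos
  have hint : IsIntegral ℚ y := Algebra.IsIntegral.isIntegral y
  have hadj : Algebra.adjoin ℚ {y} = ⊤ := by
    have h := adjoin_simple_toSubalgebra_of_isAlgebraic (Algebra.IsAlgebraic.isAlgebraic (R := ℚ) y)
    rw [hgen, top_toSubalgebra] at h
    exact h.symm
  set pb : PowerBasis ℚ L := PowerBasis.ofAdjoinEqTop hint hadj with hpb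
  have hpg : pb.gen = y := PowerBasis.ofAdjoinEqTop_gen hint hadj
  have hdim : pb.dim = finrank ℚ L := pb.finrank.symm
  have hgx : (g.map (spc x)).Monic := hg.map _
  have hgd : (g.map (spc x)).natDegree = g.natDegree := hg.natDegree_map _
  have hmin : minpoly ℚ y = g.map (spc x) := by
    refine (eq_of_monic_of_dvd_of_natDegree_le (minpoly.monic hint) hgx
      (minpoly.dvd ℚ y hy) ?_).symm
    rw [hgd, ← hfin, ← hdim, ← hpg, pb.natDegree_minpoly]
  have hcard : Fintype.card (Fin pb.dim) = Fintype.card (L →ₐ[ℚ] ℂ) := by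
    rw [Fintype.card_fin, AlgHom.card]
    exact hdim
  let e : Fin pb.dim ≃ (L →ₐ[ℚ] ℂ) := Fintype.equivOfCardEq hcard
  have h1 := Algebra.discr_powerBasis_eq_prod ℚ ℂ pb e
  have hinj : Function.Injective fun i => e i pb.gen := by
    intro i j h
    exact e.injective (pb.algHom_ext h)
  have hprod : (minpoly ℚ y).map (algebraMap ℚ ℂ) = ∏ i, (X - C (e i pb.gen)) := by
    refine eq_of_monic_of_dvd_of_natDegree_le (monic_prod_of_monic _ _ fun p _ => monic_X_sub_C _)
      ((minpoly.monic hint).map _) ?_ ?_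
    · refine Finset.prod_dvd_of_coprime ?_ ?_
      · intro i _ j _ hij
        exact pairwise_coprime_X_sub_C hinj hij
      · intro i _
        rw [dvd_iff_isRoot, IsRoot.def, eval_map, ← aeval_def, hpg, aeval_algHom_apply,
          minpoly.aeval, map_zero]
    · rw [(minpoly.monic hint).natDegree_map,
        natDegree_prod_of_monic _ _ (fun p _ => monic_X_sub_C _), ← hpg, pb.natDegree_minpoly]
      simp
  have hdpos : 0 < pb.dim := by rw [hdim]; exact finrank_pos
  have h2 : algebraMap ℚ ℂ (Algebra.discr ℚ pb.basis) = algebraMap ℚ ℂ (spc x g.discr) := by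
    have h3 := discr_map (algebraMap ℚ ℂ) (minpoly ℚ y) (minpoly.monic hint) (by
      rw [← hpg, pb.natDegree_minpoly]; exact hdpos)
    rw [hprod, discr_prod hdpos] at h3
    have h4 := discr_map (spc x) g hg hd
    rw [← h4, ← hmin, ← h3, h1]
    refine Finset.prod_congr rfl fun i _ => Finset.prod_congr rfl fun j _ => ?_
    ring
  have h3 : Algebra.discr ℚ pb.basis = spc x g.discr := (algebraMap ℚ ℂ).injective h2
  -- the change of basis
  have hc : Fintype.card (Module.Free.ChooseBasisIndex ℤ (NumberField.RingOfIntegers L)) =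
      pb.dim := by
    rw [← Module.finrank_eq_card_basis (NumberField.RingOfIntegers.basis L),
      NumberField.RingOfIntegers.rank, pb.finrank]
  let e' : Module.Free.ChooseBasisIndex ℤ (NumberField.RingOfIntegers L) ≃ Fin pb.dim :=
    Fintype.equivFinOfCardEq hc
  let b : Module.Basis (Fin pb.dim) ℚ L := (NumberField.integralBasis L).reindex e'
  have h5 := Algebra.discr_of_matrix_vecMul (A := ℚ) (b : Fin pb.dim → L) (b.toMatrix pb.basis)
  rw [Module.Basis.toMatrix_map_vecMul] at h5
  have h4 : Algebra.discr ℚ (b : Fin pb.dim → L) = (NumberField.discr L : ℚ) := by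
    rw [NumberField.coe_discr]
    have := Algebra.discr_reindex ℚ (NumberField.integralBasis L) e'
    rw [← this]
    congr 1
    exact Module.Basis.coe_reindex _ _
  refine ⟨(b.toMatrix pb.basis).det, ?_, ?_⟩
  · intro h0
    have h6 := Algebra.discr_not_zero_of_basis ℚ pb.basis
    rw [h5, h0] at h6
    apply h6
    ring
  · rw [← h3, h5, h4]
    ring

end Pool.Agent.X236.GP
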