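import Pool.Agent.X236.GP.Alg
import Pool.Agent.X236.GP.Dsc

/-!
# Fields generated by the specialisations of a polynomial
-/

set_option autoImplicit false

namespace Pool.Agent.X236.GP

open Finset Polynomial Module IntermediateField

lemma hmg_eval {f : ℤ[X]} {l : ℕ} (hl : f.natDegree ≤ 2 * l) (x : ℚ) :
    ((hmg f l x.num x.den : ℤ) : ℚ) = (x.den : ℚ) ^ (2 * l) * spc x f := by
  have hx : x = (x.num : ℚ) / x.den := (Rat.num_div_den x).symm
  have hden : (x.den : ℚ) ≠ 0 := by exact_mod_cast x.den_ne_zero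
  have h0 : spc x f = ∑ k ∈ Finset.range (f.natDegree + 1), (f.coeff k : ℚ) * x ^ k := by
    unfold spc
    rw [coe_eval₂RingHom, eval₂_eq_sum_range]
    simp
  rw [h0, mul_sum]
  unfold hmg
  push_cast
  refine sum_congr rfl fun k hk => ?_
  have hk' : k ≤ 2 * l := by
    rw [mem_range] at hk
    omega
  have h1 : (x.den : ℚ) ^ (2 * l) = (x.den : ℚ) ^ (2 * l - k) * (x.den : ℚ) ^ k := by
    rw [← pow_add, Nat.sub_add_cancel hk']
  have h2 : x ^ k = (x.num : ℚ) ^ k / (x.den : ℚ) ^ k := by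
    rw [← div_pow, ← hx]
  rw [h1, h2]
  field_simp

/-- an integer which is a squarefree integer times the square of a rational number -/
lemma int_of_rat {σ n : ℤ} (hσ : Squarefree σ) {q : ℚ} (h : (n : ℚ) = σ * q ^ 2) :
    ∃ y : ℤ, n = σ * y ^ 2 := by
  have hint : IsIntegral ℤ ((σ : ℚ) * q) := by
    refine IsIntegral.of_pow (n := 2) (by norm_num) ?_
    have e : ((σ : ℚ) * q) ^ 2 = ((σ * n : ℤ) : ℚ) := by
      push_cast
      rw [h]
      ring
    rw [e]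
    exact isIntegral_algebraMap (R := ℤ) (A := ℚ) (x := σ * n)
  obtain ⟨z, hz⟩ := IsIntegrallyClosed.isIntegral_iff.1 hint
  have hz' : (z : ℚ) = σ * q := by simpa using hz
  have hz2 : z ^ 2 = σ * n := by
    have : ((z ^ 2 : ℤ) : ℚ) = ((σ * n : ℤ) : ℚ) := by
      push_cast
      rw [hz', h]
      ring
    exact_mod_cast this
  have hdvd : σ ∣ z := (hσ.dvd_pow_iff_dvd two_ne_zero).1 ⟨n, hz2⟩
  obtain ⟨y, hy⟩ := hdvd
  refine ⟨y, ?_⟩
  have hσ0 : σ ≠ 0 := hσ.ne_zero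
  have : σ * n = σ * (σ * y ^ 2) := by
    rw [← hz2, hy]
    ring
  exact mul_left_cancel₀ hσ0 this

/-- the squarefree part of the form -/
lemma to_hmg {D f : ℤ[X]} {c : ℤ} {h : ℚ[X]} (hc : c ≠ 0)
    (hD : D.map (Int.castRingHom ℚ) = C (c : ℚ) * f.map (Int.castRingHom ℚ) * h ^ 2)
    {l : ℕ} (hl : f.natDegree ≤ 2 * l) (x : ℚ) (d : ℤ) (hd : d ≠ 0) (k : ℚ) (hk : k ≠ 0)
    (hx : spc x D = d * k ^ 2) :
    ∃ σ y : ℤ, Squarefree σ ∧ σ.natAbs ≤ c.natAbs * d.natAbs ∧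
      hmg f l x.num x.den = σ * y ^ 2 := by
  have hev : ∀ P : ℤ[X], spc x P = (P.map (Int.castRingHom ℚ)).eval x := by
    intro P
    unfold spc
    rw [coe_eval₂RingHom, eval_map]
  have h1 : (c : ℚ) * spc x f * (h.eval x) ^ 2 = d * k ^ 2 := by
    rw [← hx, hev D, hD, eval_mul, eval_mul, eval_C, eval_pow, ← hev f]
  have hc' : (c : ℚ) ≠ 0 := by exact_mod_cast hc
  have hd' : (d : ℚ) ≠ 0 := by exact_mod_cast hd
  have hh : h.eval x ≠ 0 := by
    intro h0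
    rw [h0] at h1
    have : (d : ℚ) * k ^ 2 ≠ 0 := mul_ne_zero hd' (pow_ne_zero 2 hk)
    apply this
    rw [← h1]
    ring
  obtain ⟨a, t, hat, hasf⟩ := Nat.sq_mul_squarefree (c * d).natAbs
  have hcd : c * d ≠ 0 := mul_ne_zero hc hd
  set σ : ℤ := (c * d).sign * a with hσ
  have hsign : (c * d).sign = 1 ∨ (c * d).sign = -1 := by
    rcases lt_or_gt_of_ne hcd with h | h
    · right; exact Int.sign_eq_neg_one_of_neg h
    · left; exact Int.sign_eq_one_of_pos h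
  have hσabs : σ.natAbs = a := by
    rw [hσ]
    rcases hsign with h | h <;> rw [h] <;> simp
  have hσsf : Squarefree σ := by
    rw [← Int.squarefree_natAbs, hσabs]
    exact hasf
  have hσt : σ * t ^ 2 = c * d := by
    have e1 : ((c * d).natAbs : ℤ) = t ^ 2 * a := by
      rw [← hat]
      push_cast
      ring
    have e2 : c * d = (c * d).sign * (c * d).natAbs := (Int.sign_mul_natAbs _).symm
    calc σ * t ^ 2 = (c * d).sign * (t ^ 2 * a) := by rw [hσ]; ring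
      _ = (c * d).sign * (c * d).natAbs := by rw [e1]
      _ = c * d := e2.symm
  have hle : σ.natAbs ≤ c.natAbs * d.natAbs := by
    rw [hσabs, ← Int.natAbs_mul, ← hat]
    have ht : t ≠ 0 := by
      rintro rfl
      apply hcd
      rw [← hσt]
      ring
    exact Nat.le_mul_of_pos_left a (pow_pos (Nat.pos_of_ne_zero ht) 2)
  have hq : ((hmg f l x.num x.den : ℤ) : ℚ) =
      σ * ((x.den : ℚ) ^ l * t * k / (c * h.eval x)) ^ 2 := by
    rw [hmg_eval hl]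
    have hσt' : (σ : ℚ) * (t : ℚ) ^ 2 = c * d := by exact_mod_cast hσt
    have h2 : spc x f = c * d * (k / (c * h.eval x)) ^ 2 := by
      field_simp
      linear_combination h1
    rw [h2, ← hσt']
    have h3 : (x.den : ℚ) ^ (2 * l) = ((x.den : ℚ) ^ l) ^ 2 := by
      rw [← pow_mul]
      congr 1
      ring
    rw [h3]
    field_simp
  obtain ⟨y, hy⟩ := int_of_rat hσsf hq
  exact ⟨σ, y, hσsf, hle, hy⟩

/-- the height -/
noncomputable def hgt (x : ℚ) : ℝ := Real.log ((max x.num.natAbs x.den : ℕ) : ℝ)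

lemma fin_hgt (B : ℝ) : {x : ℚ | (x.num.natAbs : ℝ) ≤ B ∧ (x.den : ℝ) ≤ B}.Finite := by
  refine Set.Finite.subset (Set.Finite.image (fun p : ℤ × ℤ => (p.1 : ℚ) / p.2)
    ((Set.finite_Icc (-⌊B⌋) ⌊B⌋).prod (Set.finite_Icc (-⌊B⌋) ⌊B⌋))) ?_
  intro x hx
  refine ⟨(x.num, x.den), ?_, by simpa using Rat.num_div_den x⟩
  obtain ⟨h1, h2⟩ := hx
  have h3 : (x.num.natAbs : ℤ) ≤ ⌊B⌋ := Int.le_floor.2 (by rw [Int.cast_natCast]; exact h1)
  have h4 : (x.den : ℤ) ≤ ⌊B⌋ := Int.le_floor.2 (by rw [Int.cast_natCast]; exact h2)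
  have h5 := x.den_pos
  simp only [Set.mem_prod, Set.mem_Icc]
  omega

lemma hgt_iff {B : ℝ} (hB : 1 ≤ B) (x : ℚ) :
    hgt x ≤ Real.log B ↔ (x.num.natAbs : ℝ) ≤ B ∧ (x.den : ℝ) ≤ B := by
  have h1 : (0 : ℝ) < ((max x.num.natAbs x.den : ℕ) : ℝ) := by
    have := x.den_pos
    have : 0 < max x.num.natAbs x.den := lt_max_of_lt_right this
    exact_mod_cast this
  unfold hgt
  rw [Real.log_le_log_iff h1 (by linarith)]
  push_cast
  exact max_le_iff

/-- **The rational numbers with small squarefree parts of values of a polynomial.** -/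
theorem main_poly (D : ℤ[X])
    (hD : ∀ (c : ℚ) (h : ℚ[X]), D.map (Int.castRingHom ℚ) ≠ C c * h ^ 2) {κ δ : ℝ}
    (hκ : κ ≤ 2) (hδ : 0 < δ) :
    ∃ C : ℝ, 0 < C ∧ ∀ B : ℝ, 1 ≤ B → ∃ T : Finset ℚ,
      (T.card : ℝ) ≤ C * B ^ (3 / 2 + κ / 4 + δ) ∧
      ∀ (x : ℚ) (d : ℤ) (k : ℚ), hgt x ≤ Real.log B → d ≠ 0 → k ≠ 0 → spc x D = d * k ^ 2 →
        x ∉ T → B ^ κ < |(d : ℝ)| := by
  classical
  obtain ⟨f, R, c, h, hG, hc, hDf⟩ := exists_part D hD
  have hc1 : (1 : ℝ) ≤ c.natAbs := by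
    exact_mod_cast Nat.one_le_iff_ne_zero.2 (Int.natAbs_ne_zero.2 hc)
  obtain ⟨C, hC0, hC⟩ := count_sf hG hc1 hδ
  refine ⟨C * (c.natAbs : ℝ) ^ (1 / 4 : ℝ), by positivity, fun B hB => ?_⟩
  have hB0 : 0 < B := by linarith
  set l : ℕ := f.natDegree with hl
  set T : Finset ℚ := (fin_hgt B).toFinset.filter (fun x => ∃ σ y : ℤ, Squarefree σ ∧
    (σ.natAbs : ℝ) ≤ c.natAbs * B ^ κ ∧ hmg f l x.num x.den = σ * y ^ 2) with hT
  refine ⟨T, ?_, ?_⟩
  · have h1 := hC l B (c.natAbs * B ^ κ) T (by omega) hB (by positivity) (by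
      have : B ^ κ ≤ B ^ (2 : ℝ) := Real.rpow_le_rpow_of_exponent_le hB hκ
      rw [Real.rpow_two] at this
      gcongr) (fun x hx => by
        rw [hT, mem_filter, Set.Finite.mem_toFinset] at hx
        exact hx.1) (fun x hx => by
        rw [hT, mem_filter] at hx
        exact hx.2)
    refine h1.trans (le_of_eq ?_)
    rw [Real.mul_rpow (by positivity) (by positivity), ← Real.rpow_mul hB0.le]
    have e : B ^ (3 / 2 + κ / 4 + δ) = B ^ (3 / 2 + δ) * B ^ (κ * (1 / 4)) := by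
      rw [← Real.rpow_add hB0]
      congr 1
      ring
    rw [e]
    ring
  · intro x d k hx hd hk hxd hxT
    by_contra hcon
    rw [not_lt] at hcon
    apply hxT
    rw [hT, mem_filter, Set.Finite.mem_toFinset]
    refine ⟨(hgt_iff hB x).1 hx, ?_⟩
    obtain ⟨σ, y, h1, h2, h3⟩ := to_hmg hc hDf (l := l) (by omega) x d hd k hk hxd
    refine ⟨σ, y, h1, ?_, h3⟩
    calc (σ.natAbs : ℝ) ≤ (c.natAbs : ℝ) * d.natAbs := by exact_mod_cast h2
      _ ≤ c.natAbs * B ^ κ := by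
        refine mul_le_mul_of_nonneg_left ?_ (by positivity)
        rw [Nat.cast_natAbs]
        push_cast
        exact hcon

/-- **Fields of degree `N`.** -/
theorem main_field (g : ℤ[X][X]) (hg : g.Monic)
    (hD : ∀ (c : ℚ) (h : ℚ[X]), g.discr.map (Int.castRingHom ℚ) ≠ C c * h ^ 2) {κ δ : ℝ}
    (hκ : κ ≤ 2) (hδ : 0 < δ) :
    ∃ C : ℝ, 0 < C ∧ ∀ B : ℝ, 1 ≤ B → ∃ T : Finset ℚ,
      (T.card : ℝ) ≤ C * B ^ (3 / 2 + κ / 4 + δ) ∧
      ∀ (x : ℚ) (L : Type) [Field L] [NumberField L] (y : L), hgt x ≤ Real.log B →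
        finrank ℚ L = g.natDegree → ℚ⟮y⟯ = ⊤ → aeval y (g.map (spc x)) = 0 →
        x ∉ T → B ^ κ < |(NumberField.discr L : ℝ)| := by
  obtain ⟨C, hC0, hC⟩ := main_poly g.discr hD hκ hδ
  refine ⟨C, hC0, fun B hB => ?_⟩
  obtain ⟨T, hT1, hT2⟩ := hC B hB
  refine ⟨T, hT1, ?_⟩
  intro x L _ _ y hx hfin hgen hy hxT
  obtain ⟨k, hk, hdk⟩ := discr_link g hg x L y hy hgen hfin
  exact hT2 x (NumberField.discr L) k hx (NumberField.discr_ne_zero L) hk hdk hxT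

end Pool.Agent.X236.GP
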