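import Pool.Agent.X236.GP.Sum

/-!
# Polynomials which are not a constant times a square
-/

set_option autoImplicit false

namespace Pool.Agent.X236.GP

open Finset Polynomial

/-- a polynomial is a squarefree polynomial times a square -/
lemma sqf_decomp {k : Type} [Field k] (n : ℕ) : ∀ p : k[X], p ≠ 0 → p.natDegree ≤ n →
    ∃ g h : k[X], Squarefree g ∧ h ≠ 0 ∧ p = g * h ^ 2 := by
  induction n using Nat.strong_induction_on with
  | _ n ih =>
    intro p hp hdeg
    by_cases hs : Squarefree p
    · exact ⟨p, 1, hs, one_ne_zero, by ring⟩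
    · unfold Squarefree at hs
      push Not at hs
      obtain ⟨x, ⟨q, hq⟩, hx⟩ := hs
      have hx0 : x ≠ 0 := by
        rintro rfl
        apply hp
        rw [hq]
        ring
      have hq0 : q ≠ 0 := by
        rintro rfl
        apply hp
        rw [hq]
        ring
      have hxd : 0 < x.natDegree := by
        by_contra hcon
        apply hx
        rw [not_lt, Nat.le_zero] at hcon
        rw [isUnit_iff_degree_eq_zero, degree_eq_natDegree hx0, hcon]
        rfl
      have hqd : p.natDegree = x.natDegree + x.natDegree + q.natDegree := by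
        rw [hq, natDegree_mul (mul_ne_zero hx0 hx0) hq0, natDegree_mul hx0 hx0]
      obtain ⟨g, h, h1, h2, h3⟩ := ih (n - 1) (by omega) q hq0 (by omega)
      refine ⟨g, x * h, h1, mul_ne_zero hx0 h2, ?_⟩
      rw [hq, h3]
      ring

/-- squarefree polynomials have good reduction -/
theorem exists_good (f : ℤ[X]) (hf : Squarefree (f.map (Int.castRingHom ℚ)))
    (hd : 1 ≤ f.natDegree) : ∃ R : ℕ, Good f f.natDegree R := by
  have hf0 : f ≠ 0 := by
    rintro rfl
    simp at hd
  have hinj : Function.Injective (Int.castRingHom ℚ) := RingHom.injective_int _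
  have hnd : (f.map (Int.castRingHom ℚ)).natDegree = f.natDegree :=
    natDegree_map_eq_of_injective hinj f
  have hcop : IsCoprime (f.map (Int.castRingHom ℚ)) (derivative (f.map (Int.castRingHom ℚ))) :=
    PerfectField.separable_iff_squarefree.2 hf
  have hder : (derivative f).natDegree ≤ f.natDegree - 1 := natDegree_derivative_le f
  set r : ℤ := f.resultant (derivative f) f.natDegree (f.natDegree - 1) with hr
  have hr0 : r ≠ 0 := by
    intro h0
    have h1 := resultant_map_map f (derivative f) f.natDegree (f.natDegree - 1) (Int.castRingHom ℚ)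
    rw [← hr, h0, map_zero, ← derivative_map] at h1
    have hdd : (derivative (f.map (Int.castRingHom ℚ))).natDegree = f.natDegree - 1 := by
      have h9 := degree_derivative (p := f.map (Int.castRingHom ℚ)) (by rw [hnd]; omega)
      rw [hnd] at h9
      exact natDegree_eq_of_degree_eq_some h9
    have h2 := resultant_ne_zero _ _ hcop
    rw [hdd, hnd] at h2
    exact h2 h1
  refine ⟨2 * f.leadingCoeff.natAbs * r.natAbs, ⟨?_, ?_, rfl, hd, ?_, ?_⟩⟩
  · exact mul_ne_zero (mul_ne_zero two_ne_zero (Int.natAbs_ne_zero.2 (leadingCoeff_ne_zero.2 hf0)))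
      (Int.natAbs_ne_zero.2 hr0)
  · exact (Dvd.intro _ rfl).mul_right _
  · intro p hp hpR
    refine natDegree_map_of_leadingCoeff_ne_zero _ ?_
    rw [eq_intCast, Ne, ZMod.intCast_zmod_eq_zero_iff_dvd, Int.natCast_dvd]
    intro h
    exact hpR ((h.mul_left _).mul_right _)
  · intro p hp hpR c h hch
    have : Fact p.Prime := ⟨hp⟩
    have hnd2 : (f.map (Int.castRingHom (ZMod p))).natDegree = f.natDegree := by
      refine natDegree_map_of_leadingCoeff_ne_zero _ ?_
      rw [eq_intCast, Ne, ZMod.intCast_zmod_eq_zero_iff_dvd, Int.natCast_dvd]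
      intro h
      exact hpR ((h.mul_left _).mul_right _)
    have hrp : (r : ZMod p) ≠ 0 := by
      rw [Ne, ZMod.intCast_zmod_eq_zero_iff_dvd, Int.natCast_dvd]
      intro h
      exact hpR (h.mul_left _)
    obtain ⟨P, Q, -, -, hPQ⟩ := exists_mul_add_mul_eq_C_resultant f (derivative f)
      (m := f.natDegree) (n := f.natDegree - 1) le_rfl hder (Or.inl (by omega))
    have h1 := congrArg (Polynomial.map (Int.castRingHom (ZMod p))) hPQ
    rw [Polynomial.map_add, Polynomial.map_mul, Polynomial.map_mul, Polynomial.map_C,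
      ← derivative_map, hch, ← hr, eq_intCast] at h1
    have h2 : h ∣ C (r : ZMod p) := by
      rw [← h1]
      refine dvd_add (Dvd.dvd.mul_right ?_ _) (Dvd.dvd.mul_right ?_ _)
      · exact Dvd.dvd.mul_left (dvd_pow_self h two_ne_zero) _
      · rw [derivative_mul, derivative_C, zero_mul, zero_add, derivative_pow]
        refine Dvd.dvd.mul_left (Dvd.dvd.mul_right (Dvd.dvd.mul_left ?_ _) _) _
        simp
    have h3 : IsUnit h := isUnit_of_dvd_unit h2 (isUnit_C.2 (IsUnit.mk0 _ hrp))
    have h4 : h.natDegree = 0 := natDegree_eq_zero_of_isUnit h3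
    have h5 : (f.map (Int.castRingHom (ZMod p))).natDegree = 0 := by
      rw [hch]
      refine Nat.le_zero.1 (natDegree_mul_le.trans ?_)
      rw [natDegree_C, natDegree_pow, h4]
    omega

/-- the squarefree part of a polynomial -/
theorem exists_part (D : ℤ[X])
    (hD : ∀ (c : ℚ) (h : ℚ[X]), D.map (Int.castRingHom ℚ) ≠ C c * h ^ 2) :
    ∃ (f : ℤ[X]) (R : ℕ) (c : ℤ) (h : ℚ[X]), Good f f.natDegree R ∧ c ≠ 0 ∧
      D.map (Int.castRingHom ℚ) = C (c : ℚ) * f.map (Int.castRingHom ℚ) * h ^ 2 := by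
  have hD0 : D.map (Int.castRingHom ℚ) ≠ 0 := by
    intro h
    exact hD 0 0 (by rw [h]; simp)
  obtain ⟨g, h, hg, hh, hgh⟩ := sqf_decomp _ _ hD0 le_rfl
  obtain ⟨b, hb, hbf⟩ := IsLocalization.integerNormalization_spec (nonZeroDivisors ℤ) g
  have hb0 : b ≠ 0 := nonZeroDivisors.ne_zero hb
  set f := IsLocalization.integerNormalization (nonZeroDivisors ℤ) g with hf
  have hbf' : f.map (Int.castRingHom ℚ) = C (b : ℚ) * g := by
    have e : algebraMap ℤ ℚ = Int.castRingHom ℚ := rfl
    rw [e] at hbf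
    rw [hbf, zsmul_eq_mul]
    simp
  have hbQ : (b : ℚ) ≠ 0 := by exact_mod_cast hb0
  have hu : IsUnit (C (b : ℚ) : ℚ[X]) := isUnit_C.2 (IsUnit.mk0 _ hbQ)
  have hsf : Squarefree (f.map (Int.castRingHom ℚ)) := by
    rw [hbf']
    intro x hx
    exact hg x ((hu.dvd_mul_left).1 hx)
  have hgd : 1 ≤ g.natDegree := by
    by_contra hcon
    have h0 : g.natDegree = 0 := by omega
    obtain ⟨c, hc⟩ := natDegree_eq_zero.1 h0
    exact hD c h (by rw [hgh, hc])
  have hfd : f.natDegree = g.natDegree := by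
    rw [← natDegree_map_eq_of_injective (RingHom.injective_int (Int.castRingHom ℚ)) f, hbf',
      natDegree_C_mul hbQ]
  obtain ⟨R, hR⟩ := exists_good f hsf (by omega)
  refine ⟨f, R, b, C ((b : ℚ)⁻¹) * h, hR, hb0, ?_⟩
  rw [hgh, hbf', mul_pow, ← C_pow]
  have e : (C (b : ℚ) * (C (b : ℚ) * g)) * (C (((b : ℚ)⁻¹) ^ 2) * h ^ 2) =
      C ((b : ℚ) * b * ((b : ℚ)⁻¹) ^ 2) * (g * h ^ 2) := by
    rw [C_mul, C_mul]
    ring
  rw [e]
  have e2 : (b : ℚ) * b * ((b : ℚ)⁻¹) ^ 2 = 1 := by field_simp
  rw [e2, C_1, one_mul]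

end Pool.Agent.X236.GP
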