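import Pool.Agent.X236.GP.Lat

/-!
# Points of one class
-/

set_option autoImplicit false

namespace Pool.Agent.X236.GP

open Finset Polynomial

/-- the arithmetic of the exponents -/
lemma arith {B E S K P : ℝ} (hB : 1 ≤ B) (hE : 1 ≤ E) (hES : E ^ 2 ≤ S) (hK : 1 ≤ K)
    (hS : S ≤ K * B ^ 2) (hP : 0 ≤ P) :
    1 + 2 * (2 * B * E / S) * (P * (max (2 * B / E) 1) ^ (1 / 2 : ℝ)) ≤
      K * (1 + 16 * P) * (B ^ (3 / 2 : ℝ) * S ^ (-(3 / 4) : ℝ)) := by
  have hB0 : 0 < B := by linarith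
  have hE0 : 0 < E := by linarith
  have hS0 : 0 < S := lt_of_lt_of_le (by positivity) hES
  have hK0 : 0 < K := by linarith
  set W : ℝ := B ^ (3 / 2 : ℝ) * S ^ (-(3 / 4) : ℝ) with hW
  have hW0 : 0 < W := by positivity
  -- one
  have hSquart : S ^ (1 / 4 : ℝ) ≤ K * B ^ (1 / 2 : ℝ) := by
    calc S ^ (1 / 4 : ℝ) ≤ (K * B ^ 2) ^ (1 / 4 : ℝ) :=
          Real.rpow_le_rpow hS0.le hS (by norm_num)
      _ = K ^ (1 / 4 : ℝ) * B ^ (1 / 2 : ℝ) := by
          rw [Real.mul_rpow hK0.le (by positivity), ← Real.rpow_natCast B 2, ← Real.rpow_mul hB0.le]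
          norm_num
      _ ≤ K ^ (1 : ℝ) * B ^ (1 / 2 : ℝ) := by
          gcongr
          norm_num
      _ = _ := by rw [Real.rpow_one]
  have h1 : 1 ≤ K * W := by
    have e : (S : ℝ) ^ (3 / 4 : ℝ) ≤ K * B ^ (3 / 2 : ℝ) := by
      calc S ^ (3 / 4 : ℝ) ≤ (K * B ^ 2) ^ (3 / 4 : ℝ) :=
            Real.rpow_le_rpow hS0.le hS (by norm_num)
        _ = K ^ (3 / 4 : ℝ) * B ^ (3 / 2 : ℝ) := by
            rw [Real.mul_rpow hK0.le (by positivity), ← Real.rpow_natCast B 2,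
              ← Real.rpow_mul hB0.le]
            norm_num
        _ ≤ K ^ (1 : ℝ) * B ^ (3 / 2 : ℝ) := by
            gcongr
            norm_num
        _ = _ := by rw [Real.rpow_one]
    have e2 : S ^ (3 / 4 : ℝ) * S ^ (-(3 / 4) : ℝ) = 1 := by
      rw [← Real.rpow_add hS0]
      norm_num
    calc (1 : ℝ) = S ^ (3 / 4 : ℝ) * S ^ (-(3 / 4) : ℝ) := e2.symm
      _ ≤ (K * B ^ (3 / 2 : ℝ)) * S ^ (-(3 / 4) : ℝ) := by gcongr
      _ = K * W := by rw [hW]; ring
  -- the root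
  have hE14 : E ^ (1 / 2 : ℝ) ≤ S ^ (1 / 4 : ℝ) := by
    have : E = (E ^ 2) ^ (1 / 2 : ℝ) := by
      rw [← Real.sqrt_eq_rpow, Real.sqrt_sq hE0.le]
    calc E ^ (1 / 2 : ℝ) = (E ^ 2) ^ (1 / 4 : ℝ) := by
          rw [← Real.rpow_natCast E 2, ← Real.rpow_mul hE0.le]
          norm_num
      _ ≤ S ^ (1 / 4 : ℝ) := Real.rpow_le_rpow (by positivity) hES (by norm_num)
  have hE12 : E ≤ S ^ (1 / 2 : ℝ) := by
    calc E = (E ^ 2) ^ (1 / 2 : ℝ) := by
          rw [← Real.sqrt_eq_rpow, Real.sqrt_sq hE0.le]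
      _ ≤ S ^ (1 / 2 : ℝ) := Real.rpow_le_rpow (by positivity) hES (by norm_num)
  have hinv : S ^ (-(3 / 4) : ℝ) * S = S ^ (1 / 4 : ℝ) := by
    rw [← Real.rpow_add_one hS0.ne']
    norm_num
  have hmax : (max (2 * B / E) 1) ^ (1 / 2 : ℝ) ≤ (2 * B / E) ^ (1 / 2 : ℝ) + 1 := by
    rcases max_cases (2 * B / E) 1 with h | h
    · rw [h.1]; linarith
    · rw [h.1, Real.one_rpow]
      have : 0 ≤ (2 * B / E) ^ (1 / 2 : ℝ) := by positivity
      linarith
  have ha : (2 * B * E / S) * (2 * B / E) ^ (1 / 2 : ℝ) ≤ 4 * W := by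
    have e1 : (2 * B / E) ^ (1 / 2 : ℝ) = 2 ^ (1 / 2 : ℝ) * B ^ (1 / 2 : ℝ) / E ^ (1 / 2 : ℝ) := by
      rw [Real.div_rpow (by positivity) hE0.le, Real.mul_rpow (by norm_num) hB0.le]
    have e2 : E / E ^ (1 / 2 : ℝ) = E ^ (1 / 2 : ℝ) := by
      rw [div_eq_iff (by positivity), ← Real.rpow_add hE0]
      norm_num
    have e3 : B * B ^ (1 / 2 : ℝ) = B ^ (3 / 2 : ℝ) := by
      rw [← Real.rpow_one_add' hB0.le (by norm_num)]
      norm_num
    have e4 : (2 : ℝ) ^ (1 / 2 : ℝ) ≤ 2 := by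
      calc (2 : ℝ) ^ (1 / 2 : ℝ) ≤ 2 ^ (1 : ℝ) :=
            Real.rpow_le_rpow_of_exponent_le (by norm_num) (by norm_num)
        _ = 2 := by norm_num
    calc (2 * B * E / S) * (2 * B / E) ^ (1 / 2 : ℝ)
        = 2 * 2 ^ (1 / 2 : ℝ) * (B * B ^ (1 / 2 : ℝ)) * (E / E ^ (1 / 2 : ℝ)) / S := by
          rw [e1]; ring
      _ = 2 * 2 ^ (1 / 2 : ℝ) * B ^ (3 / 2 : ℝ) * E ^ (1 / 2 : ℝ) / S := by rw [e2, e3]
      _ ≤ 2 * 2 * B ^ (3 / 2 : ℝ) * S ^ (1 / 4 : ℝ) / S := by gcongr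
      _ = 4 * W := by
          rw [← hinv, hW]
          field_simp
          ring
  have hb : (2 * B * E / S) * 1 ≤ 2 * K * W := by
    calc (2 * B * E / S) * 1 ≤ 2 * B * S ^ (1 / 2 : ℝ) / S := by
          rw [mul_one]
          gcongr
      _ = 2 * B * (S ^ (1 / 4 : ℝ) * S ^ (1 / 4 : ℝ)) / S := by
          rw [← Real.rpow_add hS0]
          norm_num
      _ ≤ 2 * B * (S ^ (1 / 4 : ℝ) * (K * B ^ (1 / 2 : ℝ))) / S := by gcongr
      _ = 2 * K * W := by
          have e3 : B * B ^ (1 / 2 : ℝ) = B ^ (3 / 2 : ℝ) := by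
            rw [← Real.rpow_one_add' hB0.le (by norm_num)]
            norm_num
          rw [← hinv, hW, ← e3]
          field_simp
  have hc : (2 * B * E / S) * (max (2 * B / E) 1) ^ (1 / 2 : ℝ) ≤ 4 * W + 2 * K * W := by
    calc _ ≤ (2 * B * E / S) * ((2 * B / E) ^ (1 / 2 : ℝ) + 1) := by gcongr
      _ = (2 * B * E / S) * (2 * B / E) ^ (1 / 2 : ℝ) + (2 * B * E / S) * 1 := by ring
      _ ≤ _ := add_le_add ha hb
  have hd : 2 * (2 * B * E / S) * (P * (max (2 * B / E) 1) ^ (1 / 2 : ℝ)) ≤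
      2 * P * (4 * W + 2 * K * W) := by
    calc _ = 2 * P * ((2 * B * E / S) * (max (2 * B / E) 1) ^ (1 / 2 : ℝ)) := by ring
      _ ≤ _ := mul_le_mul_of_nonneg_left hc (by positivity)
  have he : 2 * P * (4 * W + 2 * K * W) ≤ 16 * (K * (P * W)) := by
    have : P * W ≤ K * (P * W) := by
      have := mul_nonneg hP hW0.le
      nlinarith
    nlinarith [mul_nonneg hP hW0.le]
  calc _ ≤ K * W + 16 * (K * (P * W)) := by linarith
    _ = _ := by ring

variable {f : ℤ[X]} {m R : ℕ}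

/-- **The points of one class.** -/
theorem class_bd (hG : Good f m R) {K : ℝ} (hK : 1 ≤ K) {δ : ℝ} (hδ : 0 < δ) : ∃ C : ℝ, 0 < C ∧
    ∀ (l : ℕ) (B : ℝ) (σ : ℤ) (s : ℕ) (T : Finset ℚ), m ≤ 2 * l → 1 ≤ B →
      σ ≠ 0 → 0 < s → s ≤ σ.natAbs → (σ.natAbs : ℝ) ≤ K * B ^ 2 →
      (∀ x ∈ T, (x.num.natAbs : ℝ) ≤ B ∧ (x.den : ℝ) ≤ B) →
      (∀ x ∈ T, ∀ x' ∈ T, (s : ℤ) ∣ x.num * x'.den - x'.num * x.den) →
      (∀ x ∈ T, ∃ y : ℤ, hmg f l x.num x.den = σ * y ^ 2) →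
      (T.card : ℝ) ≤ C * B ^ δ * (B ^ (3 / 2 : ℝ) * (s : ℝ) ^ (-(3 / 4) : ℝ)) := by
  classical
  obtain ⟨C1, hC10, hC1⟩ := line_bd hG (δ := δ / 4) (by positivity)
  have hRpos : (0 : ℝ) < R := by exact_mod_cast Nat.pos_of_ne_zero hG.hR
  set A : ℝ := (2 * R * K ^ 2) ^ (δ / 4) with hA
  have hA0 : 0 < A := by positivity
  refine ⟨K * (1 + 16 * (C1 * A)), by positivity, ?_⟩
  intro l B σ s T hl hB hσ hs hsσ hσB hT1 hT2 hT3
  have hB0 : 0 < B := by linarith
  rcases T.eq_empty_or_nonempty with hT | ⟨x1, hx1⟩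
  · rw [hT, card_empty]
    push_cast
    positivity
  obtain ⟨e, he, he1, he2, hmin⟩ := exists_min s hs x1.num x1.den
  have hE1 : (1 : ℝ) ≤ nm e := by exact_mod_cast nm_pos he
  have hE0 : (0 : ℝ) < nm e := by linarith
  have hs0 : (0 : ℝ) < s := by exact_mod_cast hs
  have hES : (nm e : ℝ) ^ 2 ≤ s := by exact_mod_cast he2
  have hSK : (s : ℝ) ≤ K * B ^ 2 := le_trans (by exact_mod_cast hsσ) hσB
  -- the determinants
  have hdvd : ∀ x ∈ T, (s : ℤ) ∣ x.num * e.2 - x.den * e.1 := by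
    intro x hx
    have h1 := hT2 x hx x1 hx1
    have hcop : IsCoprime x1.num (x1.den : ℤ) := by
      rw [Int.isCoprime_iff_gcd_eq_one, Int.gcd, Int.natAbs_natCast]
      exact x1.reduced
    obtain ⟨u, v, huv⟩ := hcop
    have e1 : x.num * e.2 - x.den * e.1 =
        u * (x.num * (x1.num * e.2 - x1.den * e.1) + e.1 * (x.num * x1.den - x1.num * x.den)) +
        v * (x.den * (x1.num * e.2 - x1.den * e.1) + e.2 * (x.num * x1.den - x1.num * x.den)) := by
      linear_combination (-(x.num * e.2 - x.den * e.1)) * huv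
    rw [e1]
    exact dvd_add (dvd_mul_of_dvd_right (dvd_add (he1.mul_left _) (h1.mul_left _)) _)
      (dvd_mul_of_dvd_right (dvd_add (he1.mul_left _) (h1.mul_left _)) _)
  set J : ℚ → ℤ := fun x => (x.num * e.2 - x.den * e.1) / s with hJ
  have hJs : ∀ x ∈ T, x.num * e.2 - x.den * e.1 = J x * s := fun x hx =>
    (Int.ediv_mul_cancel (hdvd x hx)).symm
  have habs : ∀ x ∈ T, (|x.num * e.2 - x.den * e.1| : ℝ) ≤ 2 * B * nm e := by
    intro x hx
    obtain ⟨g1, g2⟩ := hT1 x hx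
    have hn1 : |(x.num : ℝ)| = x.num.natAbs := by
      rw [Nat.cast_natAbs]
      push_cast
      rfl
    have hn2 : |(e.2 : ℝ)| ≤ nm e := by
      have h1 : e.2.natAbs ≤ nm e := le_max_right _ _
      have h2 : |(e.2 : ℝ)| = (e.2.natAbs : ℝ) := by
        rw [Nat.cast_natAbs]
        push_cast
        rfl
      rw [h2]
      exact_mod_cast h1
    have hn3 : |(e.1 : ℝ)| ≤ nm e := by
      have h1 : e.1.natAbs ≤ nm e := le_max_left _ _
      have h2 : |(e.1 : ℝ)| = (e.1.natAbs : ℝ) := by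
        rw [Nat.cast_natAbs]
        push_cast
        rfl
      rw [h2]
      exact_mod_cast h1
    calc |(x.num : ℝ) * e.2 - x.den * e.1| ≤ |(x.num : ℝ) * e.2| + |(x.den : ℝ) * e.1| := abs_sub _ _
      _ = |(x.num : ℝ)| * |(e.2 : ℝ)| + x.den * |(e.1 : ℝ)| := by
          rw [abs_mul, abs_mul, (abs_of_nonneg (Nat.cast_nonneg x.den) : |(x.den : ℝ)| = x.den)]
      _ ≤ B * nm e + B * nm e := by
          rw [hn1]
          gcongr
      _ = _ := by ring
  have hJabs : ∀ x ∈ T, |(J x : ℝ)| * s ≤ 2 * B * nm e := by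
    intro x hx
    have h1 := habs x hx
    have h2 : ((x.num : ℝ) * e.2 - x.den * e.1) = (J x : ℝ) * s := by exact_mod_cast hJs x hx
    rw [h2, abs_mul, abs_of_nonneg hs0.le] at h1
    exact h1
  set Jm : ℕ := ⌊2 * B * nm e / s⌋₊ with hJm
  have hJmem : ∀ x ∈ T, J x ∈ Icc (-(Jm : ℤ)) Jm := by
    intro x hx
    have h1 : |(J x : ℝ)| ≤ 2 * B * nm e / s := by
      rw [le_div_iff₀ hs0]
      exact hJabs x hx
    have h2 : ((J x).natAbs : ℝ) ≤ 2 * B * nm e / s := by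
      rw [Nat.cast_natAbs]
      push_cast
      exact h1
    have h3 : (J x).natAbs ≤ Jm := Nat.le_floor h2
    rw [mem_Icc]
    omega
  have hJmle : (Jm : ℝ) ≤ 2 * B * nm e / s := Nat.floor_le (by positivity)
  -- the fibres
  have h0 : (T.filter fun x => J x = 0).card ≤ 1 := by
    rw [card_le_one]
    intro x hx x' hx'
    rw [mem_filter] at hx hx'
    have h1 := hJs x hx.1
    have h2 := hJs x' hx'.1
    rw [hx.2, zero_mul] at h1
    rw [hx'.2, zero_mul] at h2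
    have h3 : x.num * x'.den = x'.num * x.den := by
      have k1 : e.1 * (x.num * x'.den - x'.num * x.den) = 0 := by
        linear_combination x.num * h2 * (-1) + x'.num * h1
      have k2 : e.2 * (x.num * x'.den - x'.num * x.den) = 0 := by
        linear_combination (x'.den : ℤ) * h1 - (x.den : ℤ) * h2
      rcases mul_eq_zero.1 k1 with h | h
      · rcases mul_eq_zero.1 k2 with h' | h'
        · exact absurd (Prod.ext h h') he
        · linarith
      · linarith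
    exact (Rat.eq_iff_mul_eq_mul).2 h3
  set M : ℝ := C1 * (A * B ^ δ) * (max (2 * B / nm e) 1) ^ (1 / 2 : ℝ) with hM
  have hM0 : 0 ≤ M := by positivity
  have hj : ∀ j ∈ Icc (-(Jm : ℤ)) Jm, j ≠ 0 → ((T.filter fun x => J x = j).card : ℝ) ≤ M := by
    intro j _ hj0
    rcases (T.filter fun x => J x = j).eq_empty_or_nonempty with hemp | ⟨x2, hx2⟩
    · rw [hemp, card_empty]
      push_cast
      exact hM0
    have hd : j * s ≠ 0 := mul_ne_zero hj0 (by exact_mod_cast hs.ne')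
    have h1 := hC1 l B σ s e x1.num x1.den (j * s) (T.filter fun x => J x = j) hl hB hσ hs he he1
      hmin hd (fun x hx => hT1 x (mem_filter.1 hx).1)
      (fun x hx => by
        have := hT2 x1 hx1 x (mem_filter.1 hx).1
        rwa [mul_comm x.num] at this)
      (fun x hx => by rw [hJs x (mem_filter.1 hx).1, (mem_filter.1 hx).2])
      (fun x hx => hT3 x (mem_filter.1 hx).1)
    refine h1.trans ?_
    rw [hM]
    have hjs : ((j * s).natAbs : ℝ) ≤ 2 * K * B ^ 2 := by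
      have h2 := habs x2 (mem_filter.1 hx2).1
      have h3 : ((x2.num : ℝ) * e.2 - x2.den * e.1) = ((j * s : ℤ) : ℝ) := by
        have := hJs x2 (mem_filter.1 hx2).1
        rw [(mem_filter.1 hx2).2] at this
        exact_mod_cast this
      rw [h3] at h2
      rw [Nat.cast_natAbs]
      push_cast at h2 ⊢
      refine h2.trans ?_
      have h4 : (nm e : ℝ) ≤ K * B := by
        have h5 : (nm e : ℝ) ^ 2 ≤ (K * B) ^ 2 := by
          calc (nm e : ℝ) ^ 2 ≤ s := hES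
            _ ≤ K * B ^ 2 := hSK
            _ ≤ K ^ 2 * B ^ 2 := by
              gcongr
              nlinarith
            _ = _ := by ring
        exact le_of_sq_le_sq h5 (by positivity)
      calc 2 * B * (nm e : ℝ) ≤ 2 * B * (K * B) := by gcongr
        _ = _ := by ring
    have hn : ((R * σ.natAbs * (j * s).natAbs : ℕ) : ℝ) ≤ 2 * R * K ^ 2 * B ^ 4 := by
      push_cast
      calc (R : ℝ) * σ.natAbs * (j * s).natAbs ≤ R * (K * B ^ 2) * (2 * K * B ^ 2) := by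
            gcongr
        _ = _ := by ring
    have hpow : ((R * σ.natAbs * (j * s).natAbs : ℕ) : ℝ) ^ (δ / 4) ≤ A * B ^ δ := by
      calc _ ≤ (2 * R * K ^ 2 * B ^ 4) ^ (δ / 4) :=
            Real.rpow_le_rpow (Nat.cast_nonneg _) hn (by positivity)
        _ = A * B ^ δ := by
            rw [Real.mul_rpow (by positivity) (by positivity), hA, ← Real.rpow_natCast B 4,
              ← Real.rpow_mul hB0.le]
            congr 2
            push_cast
            ring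
    gcongr
  have hsum : (T.card : ℝ) ≤ 1 + 2 * Jm * M := by
    have h1 := card_eq_sum_card_fiberwise (f := J) (s := T) (t := Icc (-(Jm : ℤ)) Jm) hJmem
    have h2 : (T.card : ℝ) = ∑ j ∈ Icc (-(Jm : ℤ)) Jm, ((T.filter fun x => J x = j).card : ℝ) := by
      rw [h1]
      push_cast
      rfl
    rw [h2]
    have hmem0 : (0 : ℤ) ∈ Icc (-(Jm : ℤ)) Jm := by
      rw [mem_Icc]
      omega
    rw [← add_sum_erase _ _ hmem0]
    have h3 : ∑ j ∈ (Icc (-(Jm : ℤ)) Jm).erase 0, ((T.filter fun x => J x = j).card : ℝ) ≤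
        ∑ j ∈ (Icc (-(Jm : ℤ)) Jm).erase 0, M :=
      sum_le_sum fun j hj' => hj j (mem_of_mem_erase hj') (ne_of_mem_erase hj')
    have h4 : ((Icc (-(Jm : ℤ)) Jm).erase 0).card = 2 * Jm := by
      rw [card_erase_of_mem hmem0, Int.card_Icc]
      omega
    rw [sum_const, h4, nsmul_eq_mul] at h3
    push_cast at h3
    have h5 : ((T.filter fun x => J x = 0).card : ℝ) ≤ 1 := by exact_mod_cast h0
    linarith
  have hmain : (T.card : ℝ) ≤ 1 + 2 * (2 * B * nm e / s) *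
      ((C1 * (A * B ^ δ)) * (max (2 * B / nm e) 1) ^ (1 / 2 : ℝ)) := by
    refine hsum.trans ?_
    gcongr
  refine hmain.trans ((arith hB hE1 hES hK hSK (by positivity)).trans ?_)
  have hBδ : 1 ≤ B ^ δ := Real.one_le_rpow hB hδ.le
  have : K * (1 + 16 * (C1 * (A * B ^ δ))) ≤ K * (1 + 16 * (C1 * A)) * B ^ δ := by
    have hCA : 0 ≤ C1 * A := by positivity
    nlinarith
  exact mul_le_mul_of_nonneg_right this (by positivity)

end Pool.Agent.X236.GP
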