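import Pool.Agent.TH924.PC.Sieve

/-!
# The larger sieve for sets which occupy about half of the classes modulo almost all primes
-/

set_option autoImplicit false

namespace Pool.Agent.X236.GP

open Finset Pool.Agent.TH924.PC Pool.Agent.Helper923.HMertens

/-- Gallagher's larger sieve. -/
lemma larger {P : Finset ℕ} (hP : ∀ p ∈ P, p.Prime) {S : Finset ℤ} {X : ℝ} (hX : 1 ≤ X)
    (hS : ∀ q ∈ S, |(q : ℝ)| ≤ X) (ν : ℕ → ℝ) (hν : ∀ p ∈ P, 0 < ν p)
    (hc : ∀ p ∈ P, ((S.image fun q : ℤ => (q : ZMod p)).card : ℝ) ≤ ν p) :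
    (S.card : ℝ) * (∑ p ∈ P, Real.log p / ν p - Real.log (2 * X)) ≤ ∑ p ∈ P, Real.log p := by
  rcases Nat.eq_zero_or_pos S.card with h0 | hpos
  · rw [h0]
    simp only [CharP.cast_eq_zero, zero_mul]
    exact sum_nonneg fun p _ => Real.log_natCast_nonneg p
  · have hM : (0 : ℝ) < S.card := by exact_mod_cast hpos
    have h1 := pairs_le hP hX hS
    have h2 : ∑ p ∈ P, Real.log p / ν p * (S.card : ℝ) ^ 2 ≤ ∑ p ∈ P, Real.log p * (prs S p).card := by
      refine sum_le_sum fun p hp => ?_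
      have h3 := cs_classes S p
      have h4 : (S.card : ℝ) ^ 2 ≤ ν p * (prs S p).card :=
        h3.trans (mul_le_mul_of_nonneg_right (hc p hp) (Nat.cast_nonneg _))
      have h5 : (S.card : ℝ) ^ 2 / ν p ≤ (prs S p).card := by
        rw [div_le_iff₀ (hν p hp)]
        linarith
      calc Real.log p / ν p * (S.card : ℝ) ^ 2 = Real.log p * ((S.card : ℝ) ^ 2 / ν p) := by ring
        _ ≤ _ := mul_le_mul_of_nonneg_left h5 (Real.log_natCast_nonneg p)
    rw [← sum_mul] at h2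
    have h6 := h2.trans h1
    have h7 : (S.card : ℝ) * ((S.card : ℝ) * (∑ p ∈ P, Real.log p / ν p - Real.log (2 * X))) ≤
        S.card * ∑ p ∈ P, Real.log p := by
      nlinarith
    exact le_of_mul_le_mul_left h7 hM

/-- the primes dividing an integer contribute little -/
lemma sum_dvd {δ : ℝ} (hδ : 0 < δ) : ∃ C : ℝ, 0 ≤ C ∧ ∀ (N n : ℕ), n ≠ 0 →
    ∑ p ∈ (PP N).filter (· ∣ n), Real.log p / p ≤ δ * Real.log n + C := by
  obtain ⟨K, hK⟩ := exists_nat_gt (1 / δ)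
  refine ⟨∑ p ∈ PP K, Real.log p / p, sum_nonneg fun p _ =>
    div_nonneg (Real.log_natCast_nonneg p) (Nat.cast_nonneg _), fun N n hn => ?_⟩
  have h1 : ∑ p ∈ (PP N).filter (· ∣ n), Real.log p / p ≤
      ∑ p ∈ (PP N).filter (· ∣ n), (δ * Real.log p + if p ≤ K then Real.log p / p else 0) := by
    refine sum_le_sum fun p hp => ?_
    have hl := Real.log_natCast_nonneg p
    split_ifs with h
    · have := mul_nonneg hδ.le hl
      linarith
    · rw [not_le] at h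
      have hp1 : 1 / δ < p := hK.trans (by exact_mod_cast h)
      have hp0 : (0 : ℝ) < p := lt_trans (by positivity) hp1
      rw [add_zero, div_le_iff₀ hp0]
      have : 1 ≤ δ * p := by
        rw [div_lt_iff₀ hδ] at hp1
        linarith
      nlinarith
  refine h1.trans ?_
  rw [sum_add_distrib, ← mul_sum]
  have h2 : ∑ p ∈ (PP N).filter (· ∣ n), Real.log p ≤ Real.log n :=
    sum_log_dvd (fun p hp => (mem_filter.1 hp).2) hn
  have h3 : ∑ p ∈ (PP N).filter (· ∣ n), (if p ≤ K then Real.log p / p else 0) ≤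
      ∑ p ∈ PP K, Real.log p / p := by
    rw [← sum_filter]
    refine sum_le_sum_of_subset_of_nonneg ?_ fun p _ _ =>
      div_nonneg (Real.log_natCast_nonneg p) (Nat.cast_nonneg _)
    intro p hp
    simp only [mem_filter, mem_Icc] at hp ⊢
    exact ⟨⟨hp.1.1.1.1, hp.2⟩, hp.1.1.2⟩
  have h4 := mul_le_mul_of_nonneg_left h2 hδ.le
  linarith

lemma sum_three_half : ∃ C : ℝ, 0 ≤ C ∧ ∀ N : ℕ,
    ∑ p ∈ PP N, Real.log p / (p * Real.sqrt p) ≤ C := by
  have hs : Summable (fun n : ℕ => 4 / (n : ℝ) ^ (5 / 4 : ℝ)) := by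
    have := Real.summable_nat_rpow_inv (p := (5 / 4 : ℝ)).2 (by norm_num)
    have h2 := this.mul_left 4
    exact h2.congr fun n => (div_eq_mul_inv _ _).symm
  refine ⟨∑' n : ℕ, 4 / (n : ℝ) ^ (5 / 4 : ℝ), tsum_nonneg fun n => by positivity, fun N => ?_⟩
  refine le_trans ?_ (hs.sum_le_tsum (PP N) fun n _ => by positivity)
  refine Finset.sum_le_sum fun p hp => ?_
  rw [Finset.mem_filter] at hp
  have h2 : (2 : ℝ) ≤ p := by exact_mod_cast hp.2.two_le
  have hp0 : (0 : ℝ) < p := by linarith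
  have hlog : Real.log p ≤ 4 * (p : ℝ) ^ (1 / 4 : ℝ) := by
    have := Real.log_le_rpow_div hp0.le (ε := 1 / 4) (by norm_num)
    linarith
  rw [div_le_div_iff₀ (by positivity) (by positivity)]
  have h3 : (p : ℝ) ^ (1 / 4 : ℝ) * (p : ℝ) ^ (5 / 4 : ℝ) = p * Real.sqrt p := by
    rw [← Real.rpow_add hp0, Real.sqrt_eq_rpow, ← Real.rpow_one_add' hp0.le (by norm_num)]
    norm_num
  calc Real.log p * (p : ℝ) ^ (5 / 4 : ℝ) ≤ 4 * (p : ℝ) ^ (1 / 4 : ℝ) * (p : ℝ) ^ (5 / 4 : ℝ) :=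
        mul_le_mul_of_nonneg_right hlog (by positivity)
    _ = 4 * (p * Real.sqrt p) := by rw [mul_assoc, h3]

lemma sum_inv {c δ : ℝ} (hc : 0 ≤ c) (hδ : 0 < δ) : ∃ C : ℝ, 0 ≤ C ∧ ∀ (N n : ℕ), 1 ≤ N → n ≠ 0 →
    2 * Real.log N - δ * Real.log n - C ≤
      ∑ p ∈ (PP N).filter (fun p => ¬ p ∣ n), Real.log p / (p / 2 + c * Real.sqrt p) := by
  obtain ⟨C1, hC1⟩ := mertens_log
  obtain ⟨C2, hC20, hC2⟩ := sum_dvd (δ := δ / 2) (by positivity)
  obtain ⟨C3, hC30, hC3⟩ := sum_three_half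
  refine ⟨2 * |C1| + 2 * C2 + 4 * c * C3, by positivity, fun N n hN hn => ?_⟩
  have h1 : ∀ p ∈ PP N, 2 * (Real.log p / p) - 4 * c * (Real.log p / (p * Real.sqrt p)) ≤
      Real.log p / (p / 2 + c * Real.sqrt p) := by
    intro p hp
    have hp1 : (0 : ℝ) < p := by exact_mod_cast (mem_filter.1 hp).2.pos
    have hs : 0 < Real.sqrt p := Real.sqrt_pos.2 hp1
    have hss : Real.sqrt p * Real.sqrt p = p := Real.mul_self_sqrt hp1.le
    have hl := Real.log_natCast_nonneg p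
    have h2 : 2 * (1 / (p : ℝ)) - 4 * c * (1 / (p * Real.sqrt p)) ≤
        1 / (p / 2 + c * Real.sqrt p) := by
      rw [le_div_iff₀ (by positivity)]
      have h3 : (2 * (1 / (p : ℝ)) - 4 * c * (1 / (p * Real.sqrt p))) * (p / 2 + c * Real.sqrt p) =
          1 - 4 * c ^ 2 / p := by
        set s := Real.sqrt (p : ℝ)
        rw [← hss]
        field_simp
        ring
      rw [h3]
      have : 0 ≤ 4 * c ^ 2 / p := by positivity
      linarith
    have h4 := mul_le_mul_of_nonneg_left h2 hl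
    calc _ = Real.log p * (2 * (1 / (p : ℝ)) - 4 * c * (1 / (p * Real.sqrt p))) := by ring
      _ ≤ Real.log p * (1 / (p / 2 + c * Real.sqrt p)) := h4
      _ = _ := by ring
  have h2 : ∑ p ∈ (PP N).filter (fun p => ¬ p ∣ n),
      (2 * (Real.log p / p) - 4 * c * (Real.log p / (p * Real.sqrt p))) ≤
      ∑ p ∈ (PP N).filter (fun p => ¬ p ∣ n), Real.log p / (p / 2 + c * Real.sqrt p) :=
    sum_le_sum fun p hp => h1 p (mem_filter.1 hp).1
  refine le_trans ?_ h2
  rw [sum_sub_distrib, ← mul_sum, ← mul_sum]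
  have h3 : ∑ p ∈ (PP N).filter (fun p => ¬ p ∣ n), Real.log p / (p * Real.sqrt p) ≤ C3 := by
    refine le_trans (sum_le_sum_of_subset_of_nonneg (filter_subset _ _) fun p _ _ => ?_) (hC3 N)
    exact div_nonneg (Real.log_natCast_nonneg p) (by positivity)
  have h4 : ∑ p ∈ (PP N).filter (fun p => ¬ p ∣ n), Real.log p / p =
      ∑ p ∈ PP N, Real.log p / p - ∑ p ∈ (PP N).filter (· ∣ n), Real.log p / p := by
    rw [eq_sub_iff_add_eq, add_comm]
    exact sum_filter_add_sum_filter_not _ _ _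
  have h5 := (abs_le.1 (hC1 N hN)).1
  have h6 := hC2 N n hn
  have h7 : 4 * c * ∑ p ∈ (PP N).filter (fun p => ¬ p ∣ n), Real.log p / (p * Real.sqrt p) ≤
      4 * c * C3 := mul_le_mul_of_nonneg_left h3 (by positivity)
  have h8 := le_abs_self C1
  rw [h4]
  linarith

/-- **The sieve bound.** -/
theorem sieve_bd {c δ : ℝ} (hc : 0 ≤ c) (hδ : 0 < δ) : ∃ C : ℝ, 0 < C ∧
    ∀ (n : ℕ) (X : ℝ) (S : Finset ℤ), n ≠ 0 → 1 ≤ X → (∀ q ∈ S, |(q : ℝ)| ≤ X) →
      (∀ p : ℕ, p.Prime → ¬ p ∣ n →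
        ((S.image fun q : ℤ => (q : ZMod p)).card : ℝ) ≤ p / 2 + c * Real.sqrt p) →
      (S.card : ℝ) ≤ C * (n : ℝ) ^ δ * X ^ (1 / 2 : ℝ) := by
  obtain ⟨C, hC0, hC⟩ := sum_inv hc (δ := 2 * δ) (by positivity)
  refine ⟨4 * Real.exp ((C + 1) / 2) * 2 ^ (1 / 2 : ℝ), by positivity, ?_⟩
  intro n X S hn hX hS hcl
  have hn1 : (1 : ℝ) ≤ n := by exact_mod_cast Nat.one_le_iff_ne_zero.2 hn
  have hn0 : (0 : ℝ) < n := by linarith
  have hlogn := Real.log_nonneg hn1
  have hlogX := Real.log_nonneg (show (1 : ℝ) ≤ 2 * X by linarith)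
  set E : ℝ := (Real.log (2 * X) + 2 * δ * Real.log n + C + 1) / 2 with hE
  have hE0 : 0 ≤ E := by positivity
  set N : ℕ := ⌈Real.exp E⌉₊ with hN
  have hN1 : Real.exp E ≤ N := Nat.le_ceil _
  have hexp : 1 ≤ Real.exp E := Real.one_le_exp hE0
  have hN2 : (N : ℝ) ≤ 2 * Real.exp E := by
    have := Nat.ceil_lt_add_one (Real.exp_pos E).le
    linarith
  have hNpos : 1 ≤ N := by
    have : (1 : ℝ) ≤ N := hexp.trans hN1
    exact_mod_cast this
  have hlogN : E ≤ Real.log N := by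
    rw [Real.le_log_iff_exp_le (by linarith)]
    exact hN1
  set P := (PP N).filter (fun p => ¬ p ∣ n) with hP
  have hPp : ∀ p ∈ P, p.Prime := fun p hp => (mem_filter.1 (mem_filter.1 hp).1).2
  have h1 := larger hPp hX hS (fun p => p / 2 + c * Real.sqrt p) (fun p hp => by
      have : (0 : ℝ) < p := by exact_mod_cast (hPp p hp).pos
      positivity)
    (fun p hp => hcl p (hPp p hp) (mem_filter.1 hp).2)
  have h2 := hC N n hNpos hn
  have h3 : 1 ≤ ∑ p ∈ P, Real.log p / (p / 2 + c * Real.sqrt p) - Real.log (2 * X) := by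
    linarith
  have h4 : (S.card : ℝ) ≤ ∑ p ∈ P, Real.log p := by
    refine le_trans ?_ h1
    have : (0 : ℝ) ≤ S.card := Nat.cast_nonneg _
    nlinarith
  have h5 : ∑ p ∈ P, Real.log p ≤ 2 * N := by
    refine le_trans (sum_le_sum_of_subset_of_nonneg (filter_subset _ _) fun p _ _ =>
      Real.log_natCast_nonneg p) (theta_le N)
  have h6 : Real.exp E = Real.exp ((C + 1) / 2) * 2 ^ (1 / 2 : ℝ) * (n : ℝ) ^ δ *
      X ^ (1 / 2 : ℝ) := by
    have e1 : E = Real.log X * (1 / 2) + Real.log 2 * (1 / 2) + Real.log n * δ + (C + 1) / 2 := by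
      rw [hE, Real.log_mul (by norm_num) (by positivity)]
      ring
    rw [e1, Real.exp_add, Real.exp_add, Real.exp_add, ← Real.rpow_def_of_pos (by linarith),
      ← Real.rpow_def_of_pos (by norm_num), ← Real.rpow_def_of_pos hn0]
    ring
  calc (S.card : ℝ) ≤ 2 * (2 * Real.exp E) := by linarith
    _ = _ := by rw [h6]; ring

end Pool.Agent.X236.GP
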