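import Pool.Agent.H341R2.WeilSharp

/-!
# Residue classes of the rational numbers `x` with `f(x) = σ` times a square
-/

set_option autoImplicit false

namespace Pool.Agent.X236.GP

open Finset Polynomial

/-- the polynomial `f` of degree `m` has good reduction outside `R` -/
structure Good (f : ℤ[X]) (m R : ℕ) : Prop where
  hR : R ≠ 0
  h2 : 2 ∣ R
  hdeg : f.natDegree = m
  hm : 1 ≤ m
  hgd : ∀ p : ℕ, p.Prime → ¬ p ∣ R → (f.map (Int.castRingHom (ZMod p))).natDegree = m
  hgs : ∀ p : ℕ, p.Prime → ¬ p ∣ R → ∀ (c : ZMod p) (h : (ZMod p)[X]),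
    f.map (Int.castRingHom (ZMod p)) ≠ C c * h ^ 2

variable {f : ℤ[X]} {m R : ℕ}

/-- the number of values which are squares -/
theorem weil_count (hG : Good f m R) (p : ℕ) [Fact p.Prime] (hp : ¬ p ∣ R) (σ : ZMod p)
    (hσ : σ ≠ 0) :
    ((univ.filter fun t : ZMod p =>
      IsSquare (σ * (f.map (Int.castRingHom (ZMod p))).eval t)).card : ℝ) ≤
      (p + (m - 1) * Real.sqrt p + m) / 2 := by
  classical
  have hpp : p.Prime := Fact.out
  have hp2 : p ≠ 2 := by
    rintro rfl
    exact hp hG.h2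
  have hF : ringChar (ZMod p) ≠ 2 := by rwa [ZMod.ringChar_zmod_n]
  set g : (ZMod p)[X] := C σ * f.map (Int.castRingHom (ZMod p)) with hg
  have hgdeg : g.natDegree = m := by
    rw [hg, natDegree_C_mul hσ, hG.hgd p hpp hp]
  have hg0 : g ≠ 0 := by
    intro h
    rw [h] at hgdeg
    have := hG.hm
    simp at hgdeg
    omega
  have hns : ∀ (c : ZMod p) (h : (ZMod p)[X]), g ≠ C c * h ^ 2 := by
    intro c h hch
    refine hG.hgs p hpp hp (σ⁻¹ * c) h ?_
    rw [C_mul, mul_assoc, ← hch, hg, ← mul_assoc, ← C_mul, inv_mul_cancel₀ hσ, C_1, one_mul]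
  have hW := Pool.Agent.H341R2.Sharp.weil_sharp hF g (by rw [hgdeg]; exact hG.hm) hns
  rw [hgdeg, ZMod.card] at hW
  have hW2 := (abs_le.1 hW).2
  have hev : ∀ t, g.eval t = σ * (f.map (Int.castRingHom (ZMod p))).eval t := by
    intro t
    rw [hg, eval_mul, eval_C]
  have hzero : ((univ.filter fun t : ZMod p => g.eval t = 0).card : ℝ) ≤ m := by
    have h1 : (univ.filter fun t : ZMod p => g.eval t = 0) ⊆ g.roots.toFinset := by
      intro t ht
      rw [mem_filter] at ht
      rw [Multiset.mem_toFinset, mem_roots hg0]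
      exact ht.2
    have h2 := (card_le_card h1).trans ((Multiset.toFinset_card_le _).trans g.card_roots')
    rw [hgdeg] at h2
    exact_mod_cast h2
  have hpt : ∀ t : ZMod p, 2 * (if IsSquare (g.eval t) then (1 : ℝ) else 0) ≤
      1 + (quadraticChar (ZMod p) (g.eval t) : ℝ) + (if g.eval t = 0 then (1 : ℝ) else 0) := by
    intro t
    by_cases h0 : g.eval t = 0
    · rw [if_pos h0, h0, quadraticChar_zero]
      simp
      norm_num
    · rw [if_neg h0, add_zero]
      by_cases hs : IsSquare (g.eval t)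
      · rw [if_pos hs, (quadraticChar_one_iff_isSquare h0).2 hs]
        norm_num
      · rw [if_neg hs, quadraticChar_neg_one_iff_not_isSquare.2 hs]
        norm_num
  have hsum := sum_le_sum fun t (_ : t ∈ (univ : Finset (ZMod p))) => hpt t
  rw [← mul_sum, sum_add_distrib, sum_add_distrib, sum_boole, sum_boole, sum_const, card_univ,
    ZMod.card, nsmul_eq_mul, mul_one] at hsum
  have e1 : (univ.filter fun t : ZMod p =>
      IsSquare (σ * (f.map (Int.castRingHom (ZMod p))).eval t)) =
      (univ.filter fun t : ZMod p => IsSquare (g.eval t)) := by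
    refine filter_congr fun t _ => ?_
    rw [hev]
  rw [e1]
  linarith

/-- the homogenization in even degree `2 l` -/
def hmg (f : ℤ[X]) (l : ℕ) (a b : ℤ) : ℤ :=
  ∑ k ∈ Finset.range (f.natDegree + 1), f.coeff k * a ^ k * b ^ (2 * l - k)

/-- the slope modulo `p` -/
def Phi (p : ℕ) [Fact p.Prime] (x : ℚ) : Option (ZMod p) :=
  if (x.den : ZMod p) = 0 then none else some ((x.num : ZMod p) / (x.den : ZMod p))

lemma Phi_eq (p : ℕ) [Fact p.Prime] {x x' : ℚ} (h : Phi p x = Phi p x') :
    (p : ℤ) ∣ x.num * x'.den - x'.num * x.den := by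
  rw [← ZMod.intCast_zmod_eq_zero_iff_dvd]
  push_cast
  unfold Phi at h
  by_cases h1 : (x.den : ZMod p) = 0 <;> by_cases h2 : (x'.den : ZMod p) = 0
  · rw [h1, h2]; ring
  · rw [if_pos h1, if_neg h2] at h
    exact absurd h (by simp)
  · rw [if_neg h1, if_pos h2] at h
    exact absurd h (by simp)
  · rw [if_neg h1, if_neg h2, Option.some.injEq, div_eq_div_iff h1 h2] at h
    rw [h, sub_self]

lemma hmg_mod (p : ℕ) [Fact p.Prime] (hm : f.natDegree = m) {l : ℕ} (hl : m ≤ 2 * l) (a b : ℤ)
    (hb : (b : ZMod p) ≠ 0) : (hmg f l a b : ZMod p) =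
      (b : ZMod p) ^ (2 * l) * (f.map (Int.castRingHom (ZMod p))).eval ((a : ZMod p) / b) := by
  unfold hmg
  push_cast
  rw [eval_map, eval₂_eq_sum_range, mul_sum]
  refine sum_congr rfl fun k hk => ?_
  have hk' : k ≤ 2 * l := by
    rw [mem_range] at hk
    omega
  have h1 : (b : ZMod p) ^ (2 * l) = (b : ZMod p) ^ (2 * l - k) * (b : ZMod p) ^ k := by
    rw [← pow_add, Nat.sub_add_cancel hk']
  rw [h1, div_pow, eq_intCast]
  field_simp

/-- the classes at the primes dividing `σ` -/
theorem classes_dvd (hG : Good f m R) (p : ℕ) [Fact p.Prime] (hp : ¬ p ∣ R) (l : ℕ)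
    (hl : m ≤ 2 * l) : ∃ S : Finset (Option (ZMod p)), S.card ≤ m + 1 ∧
      ∀ (x : ℚ) (σ y : ℤ), (p : ℤ) ∣ σ → hmg f l x.num x.den = σ * y ^ 2 → Phi p x ∈ S := by
  classical
  have hpp : p.Prime := Fact.out
  set F := f.map (Int.castRingHom (ZMod p)) with hF
  have hF0 : F ≠ 0 := by
    intro h
    have h1 := hG.hgd p hpp hp
    rw [← hF, h] at h1
    have := hG.hm
    simp at h1
    omega
  refine ⟨insert none (F.roots.toFinset.image some), ?_, ?_⟩
  · refine (card_insert_le _ _).trans ?_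
    have h1 := (card_image_le (s := F.roots.toFinset) (f := some)).trans
      ((Multiset.toFinset_card_le _).trans F.card_roots')
    rw [hG.hgd p hpp hp] at h1
    omega
  · intro x σ y hσ hx
    unfold Phi
    split_ifs with h
    · exact mem_insert_self _ _
    · refine mem_insert_of_mem (mem_image_of_mem _ ?_)
      rw [Multiset.mem_toFinset, mem_roots hF0, IsRoot.def]
      have h' : ((x.den : ℤ) : ZMod p) ≠ 0 := by exact_mod_cast h
      have h1 := hmg_mod p hG.hdeg hl x.num x.den h'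
      rw [hx] at h1
      have h2 : ((σ * y ^ 2 : ℤ) : ZMod p) = 0 := by
        rw [ZMod.intCast_zmod_eq_zero_iff_dvd]
        exact hσ.mul_right _
      rw [h2] at h1
      have h3 := (mul_eq_zero.1 h1.symm).resolve_left (pow_ne_zero _ h')
      exact_mod_cast h3

/-- the classes at the primes not dividing `σ` -/
theorem classes_ndvd (hG : Good f m R) (p : ℕ) [Fact p.Prime] (hp : ¬ p ∣ R) (l : ℕ)
    (hl : m ≤ 2 * l) (σ : ℤ) (hσ : ¬ (p : ℤ) ∣ σ) : ∃ S : Finset (Option (ZMod p)),
      (S.card : ℝ) ≤ p / 2 + (m + 1) * Real.sqrt p ∧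
      ∀ (x : ℚ) (y : ℤ), hmg f l x.num x.den = σ * y ^ 2 → Phi p x ∈ S := by
  classical
  have hpp : p.Prime := Fact.out
  have hσ' : (σ : ZMod p) ≠ 0 := by
    rw [Ne, ZMod.intCast_zmod_eq_zero_iff_dvd]
    exact hσ
  refine ⟨insert none ((univ.filter fun t : ZMod p =>
      IsSquare ((σ : ZMod p) * (f.map (Int.castRingHom (ZMod p))).eval t)).image some), ?_, ?_⟩
  · have h1 := weil_count hG p hp (σ : ZMod p) hσ'
    have h2 : (((univ.filter fun t : ZMod p =>
      IsSquare ((σ : ZMod p) * (f.map (Int.castRingHom (ZMod p))).eval t)).image some).card : ℝ) ≤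
      ((univ.filter fun t : ZMod p =>
      IsSquare ((σ : ZMod p) * (f.map (Int.castRingHom (ZMod p))).eval t)).card : ℝ) := by
      exact_mod_cast card_image_le
    have h3 := card_insert_le (none : Option (ZMod p)) ((univ.filter fun t : ZMod p =>
      IsSquare ((σ : ZMod p) * (f.map (Int.castRingHom (ZMod p))).eval t)).image some)
    have h3' : ((insert none ((univ.filter fun t : ZMod p =>
      IsSquare ((σ : ZMod p) * (f.map (Int.castRingHom (ZMod p))).eval t)).image some)).card : ℝ) ≤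
      (((univ.filter fun t : ZMod p =>
      IsSquare ((σ : ZMod p) * (f.map (Int.castRingHom (ZMod p))).eval t)).image some).card : ℝ) + 1 := by
      exact_mod_cast h3
    have h4 : (1 : ℝ) ≤ Real.sqrt p := by
      rw [Real.one_le_sqrt]
      exact_mod_cast hpp.one_lt.le
    have hm : (1 : ℝ) ≤ m := by exact_mod_cast hG.hm
    nlinarith
  · intro x y hx
    unfold Phi
    split_ifs with h
    · exact mem_insert_self _ _
    · refine mem_insert_of_mem (mem_image_of_mem _ ?_)
      rw [mem_filter]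
      refine ⟨mem_univ _, ?_⟩
      have h' : ((x.den : ℤ) : ZMod p) ≠ 0 := by exact_mod_cast h
      have h1 := hmg_mod p hG.hdeg hl x.num x.den h'
      rw [hx] at h1
      refine ⟨(σ : ZMod p) * y / ((x.den : ℤ) : ZMod p) ^ l, ?_⟩
      have h2 : ((x.den : ℤ) : ZMod p) ^ l ≠ 0 := pow_ne_zero _ h'
      have h3 : ((x.den : ℤ) : ZMod p) ^ (2 * l) = ((x.den : ℤ) : ZMod p) ^ l *
          ((x.den : ℤ) : ZMod p) ^ l := by rw [← pow_add]; congr 1; ring
      rw [h3] at h1
      push_cast at h1 h2 ⊢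
      field_simp
      linear_combination (-1 : ZMod p) * h1

end Pool.Agent.X236.GP
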