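import Pool.Agent.X236.GP.LS
import Pool.Agent.X236.GP.Wl

/-!
# Points of a lattice on lines
-/

set_option autoImplicit false

namespace Pool.Agent.X236.GP

open Finset Polynomial

/-- the maximum norm -/
def nm (v : ℤ × ℤ) : ℕ := max v.1.natAbs v.2.natAbs

lemma nm_pos {v : ℤ × ℤ} (h : v ≠ 0) : 0 < nm v := by
  unfold nm
  by_contra hcon
  apply h
  rw [not_lt, Nat.le_zero, Nat.max_eq_zero_iff, Int.natAbs_eq_zero, Int.natAbs_eq_zero] at hcon
  exact Prod.ext hcon.1 hcon.2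

/-- **Thue's lemma.** -/
lemma thue (s : ℕ) (hs : 0 < s) (a b : ℤ) : ∃ e : ℤ × ℤ, e ≠ 0 ∧ (s : ℤ) ∣ a * e.2 - b * e.1 ∧
    nm e ^ 2 ≤ s := by
  classical
  have : NeZero s := ⟨hs.ne'⟩
  set k := Nat.sqrt s with hk
  set D : Finset (ℕ × ℕ) := range (k + 1) ×ˢ range (k + 1) with hD
  have hcard : (univ : Finset (ZMod s)).card < D.card := by
    rw [card_univ, ZMod.card, hD, card_product, card_range]
    exact Nat.lt_succ_sqrt s
  obtain ⟨u, hu, w, hw, huw, hf⟩ := exists_ne_map_eq_of_card_lt_of_maps_to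
    (f := fun v : ℕ × ℕ => ((a : ZMod s) * (v.2 : ZMod s) - (b : ZMod s) * (v.1 : ZMod s))) hcard
    (fun _ _ => mem_univ _)
  rw [hD, mem_product, mem_range, mem_range] at hu hw
  refine ⟨((u.1 : ℤ) - w.1, (u.2 : ℤ) - w.2), ?_, ?_, ?_⟩
  · intro h
    apply huw
    rw [Prod.ext_iff] at h
    simp only [Prod.fst_zero, Prod.snd_zero] at h
    exact Prod.ext (by omega) (by omega)
  · rw [← ZMod.intCast_zmod_eq_zero_iff_dvd]
    push_cast
    linear_combination hf
  · have h1 : nm ((u.1 : ℤ) - w.1, (u.2 : ℤ) - w.2) ≤ k := by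
      unfold nm
      refine max_le ?_ ?_
      · simp only
        omega
      · simp only
        omega
    calc nm ((u.1 : ℤ) - w.1, (u.2 : ℤ) - w.2) ^ 2 ≤ k ^ 2 := Nat.pow_le_pow_left h1 2
      _ ≤ s := Nat.sqrt_le' s

/-- a shortest vector -/
lemma exists_min (s : ℕ) (hs : 0 < s) (a b : ℤ) : ∃ e : ℤ × ℤ, e ≠ 0 ∧
    (s : ℤ) ∣ a * e.2 - b * e.1 ∧ nm e ^ 2 ≤ s ∧
    ∀ v : ℤ × ℤ, (s : ℤ) ∣ a * v.2 - b * v.1 → nm v < nm e → v = 0 := by
  classical
  obtain ⟨e0, h1, h2, h3⟩ := thue s hs a b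
  have hex : ∃ k : ℕ, ∃ e : ℤ × ℤ, e ≠ 0 ∧ (s : ℤ) ∣ a * e.2 - b * e.1 ∧ nm e = k :=
    ⟨nm e0, e0, h1, h2, rfl⟩
  obtain ⟨e, g1, g2, g3⟩ := Nat.find_spec hex
  refine ⟨e, g1, g2, ?_, ?_⟩
  · have : nm e ≤ nm e0 := by
      rw [g3]
      exact Nat.find_min' hex ⟨e0, h1, h2, rfl⟩
    exact (Nat.pow_le_pow_left this 2).trans h3
  · intro v hv hlt
    by_contra hne
    have := Nat.find_min' hex ⟨v, hne, hv, rfl⟩
    omega

/-- the vectors of the lattice proportional to a shortest vector are its multiples -/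
lemma mult_of_min (s : ℕ) (a b : ℤ) (e : ℤ × ℤ) (he : e ≠ 0) (he1 : (s : ℤ) ∣ a * e.2 - b * e.1)
    (hmin : ∀ v : ℤ × ℤ, (s : ℤ) ∣ a * v.2 - b * v.1 → nm v < nm e → v = 0) (v : ℤ × ℤ)
    (hv : (s : ℤ) ∣ a * v.2 - b * v.1) (hdet : v.1 * e.2 = v.2 * e.1) :
    ∃ t : ℤ, v.1 = t * e.1 ∧ v.2 = t * e.2 := by
  have key : ∀ t : ℤ, nm (v.1 - t * e.1, v.2 - t * e.2) < nm e →
      ∃ t : ℤ, v.1 = t * e.1 ∧ v.2 = t * e.2 := by
    intro t ht
    have h1 := hmin (v.1 - t * e.1, v.2 - t * e.2) (by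
      have : a * (v.2 - t * e.2) - b * (v.1 - t * e.1) =
        (a * v.2 - b * v.1) - t * (a * e.2 - b * e.1) := by ring
      simp only
      rw [this]
      exact dvd_sub hv (he1.mul_left _)) ht
    rw [Prod.ext_iff] at h1
    simp only [Prod.fst_zero, Prod.snd_zero] at h1
    exact ⟨t, by linarith [h1.1], by linarith [h1.2]⟩
  rcases le_total e.2.natAbs e.1.natAbs with h | h
  · have hn : nm e = e.1.natAbs := max_eq_left h
    have h0 : e.1 ≠ 0 := by
      intro h0
      apply he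
      rw [h0] at h
      simp at h
      exact Prod.ext h0 h
    refine key (v.1 / e.1) ?_
    have e1 : v.1 - v.1 / e.1 * e.1 = v.1 % e.1 := by
      have := Int.emod_add_mul_ediv v.1 e.1
      linarith
    have h2 : (v.1 % e.1).natAbs < e.1.natAbs := by
      have := Int.emod_lt_abs v.1 h0
      have := Int.emod_nonneg v.1 h0
      rw [Int.abs_eq_natAbs] at *
      omega
    have h3 : (v.1 % e.1) * e.2 = (v.2 - v.1 / e.1 * e.2) * e.1 := by
      rw [← e1]
      linear_combination hdet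
    have h4 : (v.2 - v.1 / e.1 * e.2).natAbs ≤ (v.1 % e.1).natAbs := by
      have h5 := congrArg Int.natAbs h3
      rw [Int.natAbs_mul, Int.natAbs_mul] at h5
      have h6 : 0 < e.1.natAbs := Int.natAbs_pos.2 h0
      have h7 : (v.2 - v.1 / e.1 * e.2).natAbs * e.1.natAbs ≤ (v.1 % e.1).natAbs * e.1.natAbs := by
        rw [← h5]
        exact Nat.mul_le_mul_left _ h
      exact Nat.le_of_mul_le_mul_right h7 h6
    rw [hn]
    unfold nm
    rw [e1]
    simp only
    omega
  · have hn : nm e = e.2.natAbs := max_eq_right h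
    have h0 : e.2 ≠ 0 := by
      intro h0
      apply he
      rw [h0] at h
      simp at h
      exact Prod.ext h h0
    refine key (v.2 / e.2) ?_
    have e1 : v.2 - v.2 / e.2 * e.2 = v.2 % e.2 := by
      have := Int.emod_add_mul_ediv v.2 e.2
      linarith
    have h2 : (v.2 % e.2).natAbs < e.2.natAbs := by
      have := Int.emod_lt_abs v.2 h0
      have := Int.emod_nonneg v.2 h0
      rw [Int.abs_eq_natAbs] at *
      omega
    have h3 : (v.2 % e.2) * e.1 = (v.1 - v.2 / e.2 * e.1) * e.2 := by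
      rw [← e1]
      linear_combination -hdet
    have h4 : (v.1 - v.2 / e.2 * e.1).natAbs ≤ (v.2 % e.2).natAbs := by
      have h5 := congrArg Int.natAbs h3
      rw [Int.natAbs_mul, Int.natAbs_mul] at h5
      have h6 : 0 < e.2.natAbs := Int.natAbs_pos.2 h0
      have h7 : (v.1 - v.2 / e.2 * e.1).natAbs * e.2.natAbs ≤ (v.2 % e.2).natAbs * e.2.natAbs := by
        rw [← h5]
        exact Nat.mul_le_mul_left _ h
      exact Nat.le_of_mul_le_mul_right h7 h6
    rw [hn]
    unfold nm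
    rw [e1]
    simp only
    omega

variable {f : ℤ[X]} {m R : ℕ}

/-- the points on one line -/
theorem line_bd (hG : Good f m R) {δ : ℝ} (hδ : 0 < δ) : ∃ C : ℝ, 0 < C ∧
    ∀ (l : ℕ) (B : ℝ) (σ : ℤ) (s : ℕ) (e : ℤ × ℤ) (a b d : ℤ) (T : Finset ℚ), m ≤ 2 * l → 1 ≤ B →
      σ ≠ 0 → 0 < s → e ≠ 0 → (s : ℤ) ∣ a * e.2 - b * e.1 →
      (∀ v : ℤ × ℤ, (s : ℤ) ∣ a * v.2 - b * v.1 → nm v < nm e → v = 0) → d ≠ 0 →
      (∀ x ∈ T, (x.num.natAbs : ℝ) ≤ B ∧ (x.den : ℝ) ≤ B) →
      (∀ x ∈ T, (s : ℤ) ∣ a * x.den - b * x.num) →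
      (∀ x ∈ T, x.num * e.2 - x.den * e.1 = d) →
      (∀ x ∈ T, ∃ y : ℤ, hmg f l x.num x.den = σ * y ^ 2) →
      (T.card : ℝ) ≤ C * ((R * σ.natAbs * d.natAbs : ℕ) : ℝ) ^ δ *
        (max (2 * B / nm e) 1) ^ (1 / 2 : ℝ) := by
  classical
  obtain ⟨C, hC0, hC⟩ := sieve_bd (c := (m : ℝ) + 1) (by positivity) hδ
  refine ⟨C, hC0, ?_⟩
  intro l B σ s e a b d T hl hB hσ hs he he1 hmin hd hT1 hT2 hT3 hT4
  rcases T.eq_empty_or_nonempty with hT | ⟨x0, hx0⟩
  · rw [hT, card_empty]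
    push_cast
    positivity
  have hn0 : 0 < nm e := nm_pos he
  have hn0' : (0 : ℝ) < nm e := by exact_mod_cast hn0
  -- the parameter
  have hex : ∀ x : ℚ, ∃ t : ℤ, x ∈ T →
      x.num = x0.num + t * e.1 ∧ (x.den : ℤ) = x0.den + t * e.2 := by
    intro x
    by_cases hx : x ∈ T
    · obtain ⟨t, ht1, ht2⟩ := mult_of_min s a b e he he1 hmin
        (x.num - x0.num, (x.den : ℤ) - x0.den) (by
          have := dvd_sub (hT2 x hx) (hT2 x0 hx0)
          have e1 : a * ((x.den : ℤ) - x0.den) - b * (x.num - x0.num) =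
            a * x.den - b * x.num - (a * x0.den - b * x0.num) := by ring
          simp only
          rw [e1]
          exact this) (by
          simp only
          have := hT3 x hx
          have := hT3 x0 hx0
          linarith)
      refine ⟨t, fun _ => ⟨?_, ?_⟩⟩
      · simp only at ht1
        linarith
      · simp only at ht2
        linarith
    · exact ⟨0, fun h => absurd h hx⟩
  choose t ht using hex
  have hdet : ∀ x ∈ T, ∀ x' ∈ T, x.num * x'.den - x'.num * x.den = (t x' - t x) * -d * -1 := by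
    intro x hx x' hx'
    obtain ⟨h1, h2⟩ := ht x hx
    obtain ⟨h3, h4⟩ := ht x' hx'
    have h5 := hT3 x0 hx0
    rw [h1, h2, h3, h4]
    linear_combination (t x' - t x) * h5
  have hinj : Set.InjOn t T := by
    intro x hx x' hx' h
    have h1 := ht x hx
    have h2 := ht x' hx'
    rw [h] at h1
    have h3 : x.num = x'.num := by rw [h1.1, h2.1]
    have h4 : (x.den : ℤ) = x'.den := by rw [h1.2, h2.2]
    exact Rat.ext h3 (by exact_mod_cast h4)
  have hcard : (T.image t).card = T.card := card_image_of_injOn hinj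
  rw [← hcard]
  have hn1 : R * σ.natAbs * d.natAbs ≠ 0 :=
    mul_ne_zero (mul_ne_zero hG.hR (Int.natAbs_ne_zero.2 hσ)) (Int.natAbs_ne_zero.2 hd)
  refine hC _ (max (2 * B / nm e) 1) (T.image t) hn1 (le_max_right _ _) ?_ ?_
  · intro q hq
    obtain ⟨x, hx, rfl⟩ := mem_image.1 hq
    refine le_trans ?_ (le_max_left _ _)
    rw [le_div_iff₀ hn0']
    obtain ⟨h1, h2⟩ := ht x hx
    obtain ⟨g1, g2⟩ := hT1 x hx
    obtain ⟨g3, g4⟩ := hT1 x0 hx0
    have hnum : ∀ z : ℚ, |(z.num : ℝ)| = z.num.natAbs := by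
      intro z
      rw [Nat.cast_natAbs]
      push_cast
      rfl
    have k1 : |(t x : ℝ)| * (e.1.natAbs : ℝ) ≤ 2 * B := by
      have e1 : (t x : ℝ) * e.1 = x.num - x0.num := by
        have : t x * e.1 = x.num - x0.num := by linarith
        exact_mod_cast this
      have e2 : |(t x : ℝ)| * (e.1.natAbs : ℝ) = |(x.num : ℝ) - x0.num| := by
        rw [← e1, abs_mul, Nat.cast_natAbs]
        push_cast
        rfl
      rw [e2]
      refine (abs_sub _ _).trans ?_
      rw [hnum, hnum]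
      linarith
    have k2 : |(t x : ℝ)| * (e.2.natAbs : ℝ) ≤ 2 * B := by
      have e1 : (t x : ℝ) * e.2 = (x.den : ℝ) - x0.den := by
        have : t x * e.2 = (x.den : ℤ) - x0.den := by linarith
        exact_mod_cast this
      have e2 : |(t x : ℝ)| * (e.2.natAbs : ℝ) = |(x.den : ℝ) - x0.den| := by
        rw [← e1, abs_mul, Nat.cast_natAbs]
        push_cast
        rfl
      rw [e2]
      refine (abs_sub _ _).trans ?_
      rw [abs_of_nonneg (Nat.cast_nonneg _), abs_of_nonneg (Nat.cast_nonneg _)]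
      linarith
    unfold nm
    rcases max_cases e.1.natAbs e.2.natAbs with h | h
    · rw [h.1]; exact k1
    · rw [h.1]; exact k2
  · intro p hp hpn
    have : Fact p.Prime := ⟨hp⟩
    have hpR : ¬ p ∣ R := fun h => hpn ((h.mul_right _).mul_right _)
    have hpσ : ¬ (p : ℤ) ∣ σ := fun h =>
      hpn ((Dvd.dvd.mul_left (Int.natCast_dvd.1 h) _).mul_right _)
    have hpd : ¬ (p : ℤ) ∣ d := fun h => hpn (Dvd.dvd.mul_left (Int.natCast_dvd.1 h) _)
    obtain ⟨S, hS1, hS2⟩ := classes_ndvd hG p hpR l hl σ hpσ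
    refine le_trans ?_ hS1
    have hsub : T.image (Phi p) ⊆ S := by
      intro z hz
      obtain ⟨x, hx, rfl⟩ := mem_image.1 hz
      obtain ⟨y, hy⟩ := hT4 x hx
      exact hS2 x y hy
    have hle : (((T.image t).image fun q : ℤ => (q : ZMod p)).card) ≤ (T.image (Phi p)).card := by
      rw [image_image]
      have hfac : ∀ x ∈ T, ∀ x' ∈ T, Phi p x = Phi p x' →
          ((t x : ℤ) : ZMod p) = ((t x' : ℤ) : ZMod p) := by
        intro x hx x' hx' h
        have h1 := Phi_eq p h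
        rw [hdet x hx x' hx'] at h1
        have h2 : (p : ℤ) ∣ (t x' - t x) * d := by
          have e1 : (t x' - t x) * -d * -1 = (t x' - t x) * d := by ring
          rwa [e1] at h1
        have h3 : (p : ℤ) ∣ t x' - t x :=
          (Prime.dvd_or_dvd (Nat.prime_iff_prime_int.1 hp) h2).resolve_right hpd
        have h4 := (ZMod.intCast_zmod_eq_zero_iff_dvd _ _).2 h3
        push_cast at h4
        exact (sub_eq_zero.1 h4).symm
      -- choose a section
      have hex2 : ∀ z : Option (ZMod p), ∃ w : ZMod p, ∀ x ∈ T, Phi p x = z →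
          ((t x : ℤ) : ZMod p) = w := by
        intro z
        by_cases hz : ∃ x ∈ T, Phi p x = z
        · obtain ⟨x, hx, hxz⟩ := hz
          exact ⟨((t x : ℤ) : ZMod p), fun x' hx' h => hfac x' hx' x hx (by rw [h, hxz])⟩
        · exact ⟨0, fun x hx h => absurd ⟨x, hx, h⟩ hz⟩
      choose g hg using hex2
      have e2 : T.image ((fun q : ℤ => (q : ZMod p)) ∘ t) = (T.image (Phi p)).image g := by
        rw [image_image]
        refine image_congr fun x hx => ?_
        exact hg (Phi p x) x hx rfl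
      rw [e2]
      exact card_image_le
    exact_mod_cast hle.trans (card_le_card hsub)

end Pool.Agent.X236.GP
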