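import Pool.Agent.X236.GP.Cls

/-!
# The sum over the classes and over the squarefree parts
-/

set_option autoImplicit false

namespace Pool.Agent.X236.GP

open Finset Polynomial

lemma omega_bd (K : ℕ) (hK : 1 ≤ K) {δ : ℝ} (hδ : 0 < δ) : ∃ C : ℝ, 0 < C ∧
    ∀ n : ℕ, n ≠ 0 → (K : ℝ) ^ n.primeFactors.card ≤ C * (n : ℝ) ^ δ := by
  classical
  obtain ⟨P, hP⟩ := exists_nat_gt ((K : ℝ) ^ (1 / δ))
  have hK1 : (1 : ℝ) ≤ K := by exact_mod_cast hK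
  have hK0 : (0 : ℝ) < K := by linarith
  refine ⟨(K : ℝ) ^ P, by positivity, fun n hn => ?_⟩
  have h1 : (K : ℝ) ^ n.primeFactors.card ≤
      ∏ p ∈ n.primeFactors, ((p : ℝ) ^ δ * if p < P then (K : ℝ) else 1) := by
    rw [← prod_const]
    refine prod_le_prod (fun _ _ => hK0.le) fun p hp => ?_
    have hp1 : (1 : ℝ) ≤ p := by exact_mod_cast (Nat.prime_of_mem_primeFactors hp).one_lt.le
    have hp0 : (1 : ℝ) ≤ (p : ℝ) ^ δ := Real.one_le_rpow hp1 hδ.le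
    split_ifs with h
    · nlinarith
    · rw [mul_one]
      rw [not_lt] at h
      have h2 : (K : ℝ) ^ (1 / δ) ≤ p := hP.le.trans (by exact_mod_cast h)
      calc (K : ℝ) = ((K : ℝ) ^ (1 / δ)) ^ δ := by
            rw [← Real.rpow_mul hK0.le, one_div, inv_mul_cancel₀ hδ.ne', Real.rpow_one]
        _ ≤ (p : ℝ) ^ δ := Real.rpow_le_rpow (by positivity) h2 hδ.le
  refine h1.trans ?_
  rw [prod_mul_distrib, mul_comm]
  have h2 : ∏ p ∈ n.primeFactors, ((p : ℝ) ^ δ) ≤ (n : ℝ) ^ δ := by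
    rw [Real.finsetProd_rpow _ _ (fun p _ => Nat.cast_nonneg p)]
    refine Real.rpow_le_rpow (prod_nonneg fun p _ => Nat.cast_nonneg p) ?_ hδ.le
    rw [← Nat.cast_prod]
    exact_mod_cast Nat.le_of_dvd (Nat.pos_of_ne_zero hn) (Nat.prod_primeFactors_dvd n)
  have h3 : ∏ p ∈ n.primeFactors, (if p < P then (K : ℝ) else 1) ≤ (K : ℝ) ^ P := by
    rw [prod_ite, prod_const, prod_const_one, mul_one]
    refine pow_le_pow_right₀ hK1 ?_
    calc (n.primeFactors.filter (· < P)).card ≤ (range P).card := by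
          refine card_le_card fun p hp => ?_
          rw [mem_filter] at hp
          exact mem_range.2 hp.2
      _ = P := card_range P
  refine mul_le_mul h3 h2 (prod_nonneg fun p _ => by positivity) (by positivity)

lemma sum_rpow (N : ℕ) : ∑ k ∈ Icc 1 N, (k : ℝ) ^ (-(3 / 4) : ℝ) ≤ 4 * (N : ℝ) ^ (1 / 4 : ℝ) := by
  induction N with
  | zero => simp
  | succ N ih =>
    rw [sum_Icc_succ_top (by omega)]
    have hu0 : (0 : ℝ) < (N : ℝ) + 1 := by positivity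
    set u : ℝ := ((N : ℝ) + 1) ^ (1 / 4 : ℝ) with hu
    set v : ℝ := (N : ℝ) ^ (1 / 4 : ℝ) with hv
    have hupos : 0 < u := by positivity
    have hvpos : 0 ≤ v := by positivity
    have hvu : v ≤ u := Real.rpow_le_rpow (Nat.cast_nonneg _) (by linarith) (by norm_num)
    have hu4 : u ^ 4 = (N : ℝ) + 1 := by
      rw [hu, ← Real.rpow_natCast, ← Real.rpow_mul hu0.le]
      norm_num
    have hv4 : v ^ 4 = (N : ℝ) := by
      rw [hv, ← Real.rpow_natCast, ← Real.rpow_mul (Nat.cast_nonneg _)]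
      norm_num
    have hu3 : ((N : ℝ) + 1) ^ (-(3 / 4) : ℝ) * u ^ 3 = 1 := by
      rw [hu, ← Real.rpow_natCast, ← Real.rpow_mul hu0.le, ← Real.rpow_add hu0]
      norm_num
    have h1 : 1 ≤ 4 * (u - v) * u ^ 3 := by
      have e1 : (u - v) * (u ^ 3 + u ^ 2 * v + u * v ^ 2 + v ^ 3) = 1 := by
        have : (u - v) * (u ^ 3 + u ^ 2 * v + u * v ^ 2 + v ^ 3) = u ^ 4 - v ^ 4 := by ring
        rw [this, hu4, hv4]
        ring
      have e2 : u ^ 3 + u ^ 2 * v + u * v ^ 2 + v ^ 3 ≤ 4 * u ^ 3 := by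
        have a1 : u ^ 2 * v ≤ u ^ 2 * u := mul_le_mul_of_nonneg_left hvu (by positivity)
        have a2 : v ^ 2 ≤ u ^ 2 := pow_le_pow_left₀ hvpos hvu 2
        have a3 : u * v ^ 2 ≤ u * u ^ 2 := mul_le_mul_of_nonneg_left a2 hupos.le
        have a4 : v ^ 3 ≤ u ^ 3 := pow_le_pow_left₀ hvpos hvu 3
        nlinarith
      have e3 := mul_le_mul_of_nonneg_left e2 (sub_nonneg.2 hvu)
      rw [e1] at e3
      linarith
    have h2 : ((N : ℝ) + 1) ^ (-(3 / 4) : ℝ) ≤ 4 * (u - v) := by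
      have h3 : ((N : ℝ) + 1) ^ (-(3 / 4) : ℝ) * 1 ≤
          ((N : ℝ) + 1) ^ (-(3 / 4) : ℝ) * (4 * (u - v) * u ^ 3) :=
        mul_le_mul_of_nonneg_left h1 (by positivity)
      calc ((N : ℝ) + 1) ^ (-(3 / 4) : ℝ) = ((N : ℝ) + 1) ^ (-(3 / 4) : ℝ) * 1 := by ring
        _ ≤ ((N : ℝ) + 1) ^ (-(3 / 4) : ℝ) * (4 * (u - v) * u ^ 3) := h3
        _ = 4 * (u - v) * (((N : ℝ) + 1) ^ (-(3 / 4) : ℝ) * u ^ 3) := by ring
        _ = _ := by rw [hu3, mul_one]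
    push_cast
    linarith

variable {f : ℤ[X]} {m R : ℕ}

/-- **The points with a given squarefree part.** -/
theorem sigma_bd (hG : Good f m R) {K : ℝ} (hK : 1 ≤ K) {δ : ℝ} (hδ : 0 < δ) : ∃ C : ℝ, 0 < C ∧
    ∀ (l : ℕ) (B : ℝ) (σ : ℤ) (T : Finset ℚ), m ≤ 2 * l → 1 ≤ B →
      Squarefree σ → (σ.natAbs : ℝ) ≤ K * B ^ 2 →
      (∀ x ∈ T, (x.num.natAbs : ℝ) ≤ B ∧ (x.den : ℝ) ≤ B) →
      (∀ x ∈ T, ∃ y : ℤ, hmg f l x.num x.den = σ * y ^ 2) →
      (T.card : ℝ) ≤ C * B ^ δ * (B ^ (3 / 2 : ℝ) * (σ.natAbs : ℝ) ^ (-(3 / 4) : ℝ)) := by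
  classical
  obtain ⟨C1, hC10, hC1⟩ := class_bd hG hK (δ := δ / 2) (by positivity)
  obtain ⟨C2, hC20, hC2⟩ := omega_bd (m + 1) (by omega) (δ := δ / 4) (by positivity)
  have hR0 : (0 : ℝ) < R := by exact_mod_cast Nat.pos_of_ne_zero hG.hR
  have hK0 : 0 < K := by linarith
  refine ⟨C2 * K ^ (δ / 4) * C1 * (R : ℝ) ^ (3 / 4 : ℝ), by positivity, ?_⟩
  intro l B σ T hl hB hσ hσB hT1 hT2
  have hB0 : 0 < B := by linarith
  have hσ0 : σ ≠ 0 := hσ.ne_zero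
  set n : ℕ := σ.natAbs with hn
  have hn0 : n ≠ 0 := Int.natAbs_ne_zero.2 hσ0
  have hnsf : Squarefree n := Int.squarefree_natAbs.2 hσ
  set Q : Finset ℕ := n.primeFactors.filter (fun p => ¬ p ∣ R) with hQ
  have hQp : ∀ p ∈ Q, p.Prime := fun p hp => Nat.prime_of_mem_primeFactors (mem_filter.1 hp).1
  set s : ℕ := ∏ p ∈ Q, p with hs
  have hs0 : 0 < s := prod_pos fun p hp => (hQp p hp).pos
  have hsn : n ≤ s * R := by
    have h1 : n = s * ∏ p ∈ n.primeFactors.filter (fun p => ¬ ¬ p ∣ R), p := by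
      rw [hs, hQ, prod_filter_mul_prod_filter_not]
      exact (Nat.prod_primeFactors_of_squarefree hnsf).symm
    have h2 : ∏ p ∈ n.primeFactors.filter (fun p => ¬ ¬ p ∣ R), p ∣ R := by
      refine Finset.prod_primes_dvd R ?_ ?_
      · intro p hp
        exact (Nat.prime_of_mem_primeFactors (mem_filter.1 hp).1).prime
      · intro p hp
        exact not_not.1 (mem_filter.1 hp).2
    have h3 := Nat.le_of_dvd (Nat.pos_of_ne_zero hG.hR) h2
    calc n = _ := h1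
      _ ≤ s * R := Nat.mul_le_mul_left _ h3
  have hsle : s ≤ n := by
    have h1 : s ∣ n := by
      rw [hs]
      refine Finset.prod_primes_dvd n (fun p hp => (hQp p hp).prime) ?_
      intro p hp
      exact Nat.dvd_of_mem_primeFactors (mem_filter.1 hp).1
    exact Nat.le_of_dvd (Nat.pos_of_ne_zero hn0) h1
  -- the classes
  have hfact : ∀ p : {p // p ∈ Q}, Fact (p.1).Prime := fun p => ⟨hQp p.1 p.2⟩
  have hcls : ∀ p : {p // p ∈ Q}, ∃ S : Finset (Option (ZMod p.1)), S.card ≤ m + 1 ∧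
      ∀ (x : ℚ) (σ y : ℤ), (p.1 : ℤ) ∣ σ → hmg f l x.num x.den = σ * y ^ 2 →
        @Phi p.1 (hfact p) x ∈ S := by
    intro p
    have := hfact p
    exact classes_dvd hG p.1 (mem_filter.1 p.2).2 l hl
  choose S hS1 hS2 using hcls
  set Φ : ℚ → (∀ p : {p // p ∈ Q}, Option (ZMod p.1)) := fun x p => @Phi p.1 (hfact p) x with hΦ
  have hmem : ∀ x ∈ T, Φ x ∈ Fintype.piFinset S := by
    intro x hx
    rw [Fintype.mem_piFinset]
    intro p
    obtain ⟨y, hy⟩ := hT2 x hx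
    refine hS2 p x σ y ?_ hy
    rw [Int.natCast_dvd]
    exact Nat.dvd_of_mem_primeFactors (mem_filter.1 p.2).1
  have hcardS : ((Fintype.piFinset S).card : ℝ) ≤ C2 * (n : ℝ) ^ (δ / 4) := by
    have h1 : (Fintype.piFinset S).card ≤ (m + 1) ^ n.primeFactors.card := by
      rw [Fintype.card_piFinset]
      calc ∏ p, (S p).card ≤ ∏ _p : {p // p ∈ Q}, (m + 1) := prod_le_prod' fun p _ => hS1 p
        _ = (m + 1) ^ Q.card := by
            rw [prod_const, card_univ, Fintype.card_coe]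
        _ ≤ _ := Nat.pow_le_pow_right (by omega) (card_le_card (filter_subset _ _))
    have h2 := hC2 n hn0
    refine le_trans ?_ h2
    exact_mod_cast h1
  have hfib : ∀ z ∈ Fintype.piFinset S, ((T.filter fun x => Φ x = z).card : ℝ) ≤
      C1 * B ^ (δ / 2) * (B ^ (3 / 2 : ℝ) * (s : ℝ) ^ (-(3 / 4) : ℝ)) := by
    intro z _
    refine hC1 l B σ s (T.filter fun x => Φ x = z) hl hB hσ0 hs0 hsle hσB
      (fun x hx => hT1 x (mem_filter.1 hx).1) ?_ (fun x hx => hT2 x (mem_filter.1 hx).1)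
    intro x hx x' hx'
    rw [mem_filter] at hx hx'
    rw [Int.natCast_dvd, hs]
    refine Finset.prod_primes_dvd _ (fun p hp => (hQp p hp).prime) ?_
    intro p hp
    rw [← Int.natCast_dvd]
    have h1 := congrFun (hx.2.trans hx'.2.symm) ⟨p, hp⟩
    exact @Phi_eq p (hfact ⟨p, hp⟩) x x' h1
  have hTcard : (T.card : ℝ) ≤ C2 * (n : ℝ) ^ (δ / 4) *
      (C1 * B ^ (δ / 2) * (B ^ (3 / 2 : ℝ) * (s : ℝ) ^ (-(3 / 4) : ℝ))) := by
    have h1 := card_eq_sum_card_fiberwise (f := Φ) (s := T) (t := Fintype.piFinset S) hmem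
    rw [h1]
    push_cast
    refine (sum_le_sum hfib).trans ?_
    rw [sum_const, nsmul_eq_mul]
    exact mul_le_mul_of_nonneg_right hcardS (by positivity)
  refine hTcard.trans ?_
  have hnn : (0 : ℝ) < n := by exact_mod_cast Nat.pos_of_ne_zero hn0
  have hss : (0 : ℝ) < s := by exact_mod_cast hs0
  have h1 : (n : ℝ) ^ (δ / 4) ≤ K ^ (δ / 4) * B ^ (δ / 2) := by
    calc (n : ℝ) ^ (δ / 4) ≤ (K * B ^ 2) ^ (δ / 4) :=
          Real.rpow_le_rpow hnn.le hσB (by positivity)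
      _ = _ := by
          rw [Real.mul_rpow hK0.le (by positivity), ← Real.rpow_natCast B 2,
            ← Real.rpow_mul hB0.le]
          congr 2
          push_cast
          ring
  have h2 : (s : ℝ) ^ (-(3 / 4) : ℝ) ≤ (R : ℝ) ^ (3 / 4 : ℝ) * (n : ℝ) ^ (-(3 / 4) : ℝ) := by
    have h3 : (n : ℝ) ≤ s * R := by exact_mod_cast hsn
    have h4 : ((s : ℝ) * R) ^ (-(3 / 4) : ℝ) ≤ (n : ℝ) ^ (-(3 / 4) : ℝ) :=
      Real.rpow_le_rpow_of_nonpos hnn h3 (by norm_num)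
    rw [Real.mul_rpow hss.le hR0.le] at h4
    have h5 : (R : ℝ) ^ (3 / 4 : ℝ) * (R : ℝ) ^ (-(3 / 4) : ℝ) = 1 := by
      rw [← Real.rpow_add hR0]
      norm_num
    calc (s : ℝ) ^ (-(3 / 4) : ℝ) =
          (R : ℝ) ^ (3 / 4 : ℝ) * ((s : ℝ) ^ (-(3 / 4) : ℝ) * (R : ℝ) ^ (-(3 / 4) : ℝ)) := by
          rw [mul_left_comm, h5, mul_one]
      _ ≤ _ := by gcongr
  have h3 : B ^ (δ / 2) * B ^ (δ / 2) = B ^ δ := by
    rw [← Real.rpow_add hB0]
    congr 1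
    ring
  calc C2 * (n : ℝ) ^ (δ / 4) * (C1 * B ^ (δ / 2) * (B ^ (3 / 2 : ℝ) * (s : ℝ) ^ (-(3 / 4) : ℝ)))
      ≤ C2 * (K ^ (δ / 4) * B ^ (δ / 2)) * (C1 * B ^ (δ / 2) *
        (B ^ (3 / 2 : ℝ) * ((R : ℝ) ^ (3 / 4 : ℝ) * (n : ℝ) ^ (-(3 / 4) : ℝ)))) := by gcongr
    _ = C2 * K ^ (δ / 4) * C1 * (R : ℝ) ^ (3 / 4 : ℝ) * (B ^ (δ / 2) * B ^ (δ / 2)) *
        (B ^ (3 / 2 : ℝ) * (n : ℝ) ^ (-(3 / 4) : ℝ)) := by ring
    _ = _ := by rw [h3]

/-- **The points with a small squarefree part.** -/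
theorem count_sf (hG : Good f m R) {K : ℝ} (hK : 1 ≤ K) {δ : ℝ} (hδ : 0 < δ) : ∃ C : ℝ, 0 < C ∧
    ∀ (l : ℕ) (B S : ℝ) (T : Finset ℚ), m ≤ 2 * l → 1 ≤ B → 0 ≤ S → S ≤ K * B ^ 2 →
      (∀ x ∈ T, (x.num.natAbs : ℝ) ≤ B ∧ (x.den : ℝ) ≤ B) →
      (∀ x ∈ T, ∃ σ y : ℤ, Squarefree σ ∧ (σ.natAbs : ℝ) ≤ S ∧
        hmg f l x.num x.den = σ * y ^ 2) →
      (T.card : ℝ) ≤ C * B ^ (3 / 2 + δ) * S ^ (1 / 4 : ℝ) := by
  classical
  obtain ⟨C, hC0, hC⟩ := sigma_bd hG hK hδ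
  refine ⟨8 * C, by positivity, ?_⟩
  intro l B S T hl hB hS0 hS hT1 hT2
  have hB0 : 0 < B := by linarith
  have hex : ∀ x : ℚ, ∃ σ : ℤ, x ∈ T → Squarefree σ ∧ (σ.natAbs : ℝ) ≤ S ∧
      ∃ y : ℤ, hmg f l x.num x.den = σ * y ^ 2 := by
    intro x
    by_cases hx : x ∈ T
    · obtain ⟨σ, y, h1, h2, h3⟩ := hT2 x hx
      exact ⟨σ, fun _ => ⟨h1, h2, y, h3⟩⟩
    · exact ⟨0, fun h => absurd h hx⟩
  choose σ hσ using hex
  set N : ℕ := ⌊S⌋₊ with hN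
  set D : Finset ℤ := (Icc (-(N : ℤ)) N).erase 0 with hD
  have hmem : ∀ x ∈ T, σ x ∈ D := by
    intro x hx
    obtain ⟨h1, h2, _⟩ := hσ x hx
    have h3 : (σ x).natAbs ≤ N := Nat.le_floor h2
    rw [hD, mem_erase, mem_Icc]
    exact ⟨h1.ne_zero, by omega⟩
  have h1 := card_eq_sum_card_fiberwise (f := σ) (s := T) (t := D) hmem
  have hfib : ∀ z ∈ D, ((T.filter fun x => σ x = z).card : ℝ) ≤
      C * B ^ δ * (B ^ (3 / 2 : ℝ) * (z.natAbs : ℝ) ^ (-(3 / 4) : ℝ)) := by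
    intro z hz
    rcases (T.filter fun x => σ x = z).eq_empty_or_nonempty with hemp | ⟨x2, hx2⟩
    · rw [hemp, card_empty]
      push_cast
      positivity
    rw [mem_filter] at hx2
    obtain ⟨g1, g2, _⟩ := hσ x2 hx2.1
    rw [hx2.2] at g1 g2
    refine hC l B z (T.filter fun x => σ x = z) hl hB g1 (g2.trans hS)
      (fun x hx => hT1 x (mem_filter.1 hx).1) ?_
    intro x hx
    rw [mem_filter] at hx
    obtain ⟨_, _, y, hy⟩ := hσ x hx.1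
    rw [hx.2] at hy
    exact ⟨y, hy⟩
  have h2 : (T.card : ℝ) ≤ ∑ z ∈ D, C * B ^ δ * (B ^ (3 / 2 : ℝ) *
      (z.natAbs : ℝ) ^ (-(3 / 4) : ℝ)) := by
    rw [h1]
    push_cast
    exact sum_le_sum hfib
  have h3 : ∑ z ∈ D, (z.natAbs : ℝ) ^ (-(3 / 4) : ℝ) ≤ 2 * (4 * (N : ℝ) ^ (1 / 4 : ℝ)) := by
    have e1 := sum_rpow N
    have hsplit : ∑ z ∈ D, (z.natAbs : ℝ) ^ (-(3 / 4) : ℝ) ≤
        ∑ k ∈ Icc 1 N, 2 * (k : ℝ) ^ (-(3 / 4) : ℝ) := by
      have hmem2 : ∀ z ∈ D, z.natAbs ∈ Icc 1 N := by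
        intro z hz
        rw [hD, mem_erase, mem_Icc] at hz
        rw [mem_Icc]
        omega
      rw [← sum_fiberwise_of_maps_to hmem2]
      refine sum_le_sum fun k hk => ?_
      have hcard : (D.filter fun z => z.natAbs = k).card ≤ 2 := by
        have : (D.filter fun z => z.natAbs = k) ⊆ {(k : ℤ), -(k : ℤ)} := by
          intro z hz
          rw [mem_filter] at hz
          rw [mem_insert, mem_singleton]
          omega
        exact (card_le_card this).trans card_le_two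
      calc ∑ z ∈ D with z.natAbs = k, (z.natAbs : ℝ) ^ (-(3 / 4) : ℝ)
          = ∑ z ∈ D with z.natAbs = k, (k : ℝ) ^ (-(3 / 4) : ℝ) := by
            refine sum_congr rfl fun z hz => ?_
            rw [(mem_filter.1 hz).2]
        _ = ((D.filter fun z => z.natAbs = k).card : ℝ) * (k : ℝ) ^ (-(3 / 4) : ℝ) := by
            rw [sum_const, nsmul_eq_mul]
        _ ≤ 2 * (k : ℝ) ^ (-(3 / 4) : ℝ) := by
            refine mul_le_mul_of_nonneg_right ?_ (by positivity)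
            exact_mod_cast hcard
    rw [← mul_sum] at hsplit
    linarith
  have h4 : (N : ℝ) ^ (1 / 4 : ℝ) ≤ S ^ (1 / 4 : ℝ) :=
    Real.rpow_le_rpow (Nat.cast_nonneg _) (Nat.floor_le hS0) (by norm_num)
  rw [← mul_sum, ← mul_sum] at h2
  calc (T.card : ℝ) ≤ C * B ^ δ * (B ^ (3 / 2 : ℝ) * ∑ z ∈ D, (z.natAbs : ℝ) ^ (-(3 / 4) : ℝ)) := h2
    _ ≤ C * B ^ δ * (B ^ (3 / 2 : ℝ) * (2 * (4 * S ^ (1 / 4 : ℝ)))) := by
        gcongr
        linarith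
    _ = 8 * C * (B ^ (3 / 2 : ℝ) * B ^ δ) * S ^ (1 / 4 : ℝ) := by ring
    _ = _ := by rw [← Real.rpow_add hB0]

end Pool.Agent.X236.GP
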